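import Pool.Agent.D0H95.BF.Stm2

/-! Project BF (helper95), module CIRC. -/

set_option autoImplicit false
set_option linter.unusedVariables false

open Filter Topology Set

namespace Pool.Agent.D0H25.BF

/-- a quasi-periodic solution of `f' = i μ f` with the wrong multiplier vanishes -/
theorem exp_sol {f : ℝ → ℂ} {c : ℂ} (h : ∀ u, HasDerivAt f (c * f u) u) (u : ℝ) :
    f u = f 0 * Complex.exp (c * u) := by
  have h1 : ∀ u : ℝ, HasDerivAt (fun u : ℝ => Complex.exp (-(c * u))) (-c * Complex.exp (-(c * u))) u := by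
    intro u
    have h2 : HasDerivAt (fun u : ℝ => -(c * (u : ℂ))) (-(c * 1)) u :=
      ((Complex.ofRealCLM.hasDerivAt (x := u)).const_mul c).neg
    have := h2.cexp
    convert! this using 1
    ring
  have h3 : ∀ u, HasDerivAt (fun u : ℝ => f u * Complex.exp (-(c * u))) 0 u := by
    intro u
    have := (h u).mul (h1 u)
    convert! this using 1
    ring
  have h4 : ∀ u, f u * Complex.exp (-(c * u)) = f 0 * Complex.exp (-(c * (0 : ℝ))) := by
    intro u
    exact is_const_of_deriv_eq_zero (fun u => (h3 u).differentiableAt) (fun u => (h3 u).deriv) u 0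
  have h5 := h4 u
  rw [Complex.ofReal_zero, mul_zero, neg_zero, Complex.exp_zero, mul_one] at h5
  rw [← h5, mul_assoc, ← Complex.exp_add, neg_add_cancel, Complex.exp_zero, mul_one]

theorem quasi_zero {f : ℝ → ℂ} {μ l : ℝ} (h : ∀ u, HasDerivAt f (Complex.I * μ * f u) u)
    (hp : ∀ u, f (u + 2 * Real.pi) = Complex.exp (2 * Real.pi * l * Complex.I) * f u)
    (hne : ∀ k : ℤ, μ - l ≠ k) (u : ℝ) : f u = 0 := by
  have h1 := exp_sol h
  by_cases h0 : f 0 = 0
  · rw [h1 u, h0, zero_mul]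
  exfalso
  have h2 := hp 0
  rw [zero_add, h1 (2 * Real.pi), mul_comm] at h2
  have h3 := mul_right_cancel₀ h0 h2
  rw [Complex.exp_eq_exp_iff_exists_int] at h3
  obtain ⟨k, hk⟩ := h3
  apply hne k
  have hpi : (Real.pi : ℂ) ≠ 0 := by exact_mod_cast Real.pi_ne_zero
  have h4 : ((μ : ℂ) - l) * (2 * Real.pi * Complex.I) = k * (2 * Real.pi * Complex.I) := by
    push_cast at hk
    linear_combination hk
  have h5 : (2 * Real.pi * Complex.I : ℂ) ≠ 0 := by
    simp [hpi]
  have h6 := mul_right_cancel₀ h5 h4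
  exact_mod_cast h6

theorem circ : ∀ (κ l : ℝ) (X X' Y Y' : ℝ → ℂ),
  0 < l → l < 1 → 4 * l ^ 2 ≠ 1 → 2 * l ^ 2 ≠ 1 → l ^ 4 - l ^ 2 + 9 / 4 - κ ^ 2 = 0 →
  (∀ u, HasDerivAt X (X' u) u ∧ HasDerivAt Y (Y' u) u ∧
    HasDerivAt X' (3 / 2 * X u + κ * Y u - 2 * Complex.I * X' u) u ∧
    HasDerivAt Y' (3 / 2 * Y u + κ * X u + 2 * Complex.I * Y' u) u ∧
    X (u + 2 * Real.pi) = Complex.exp (2 * Real.pi * l * Complex.I) * X u ∧
    Y (u + 2 * Real.pi) = Complex.exp (2 * Real.pi * l * Complex.I) * Y u) →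
  ∃ c : ℂ, ∀ u, X u = c * κ * Complex.exp (l * u * Complex.I) ∧
    Y u = - c * (l ^ 2 + 2 * l + 3 / 2) * Complex.exp (l * u * Complex.I) := by
  intro κ l X X' Y Y' hl0 hl1 h4 h2 hκ h
  have hI := Complex.I_sq
  -- the derivatives are quasi-periodic
  have hX' : ∀ u, X' (u + 2 * Real.pi) = Complex.exp (2 * Real.pi * l * Complex.I) * X' u := by
    intro u
    have e1 : HasDerivAt (fun u => X (u + 2 * Real.pi)) (X' (u + 2 * Real.pi)) u :=
      HasDerivAt.comp_add_const (x := u) (a := 2 * Real.pi) (h (u + 2 * Real.pi)).1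
    have e2 : HasDerivAt (fun u => X (u + 2 * Real.pi))
        (Complex.exp (2 * Real.pi * l * Complex.I) * X' u) u := by
      have : (fun u => X (u + 2 * Real.pi)) =
          fun u => Complex.exp (2 * Real.pi * l * Complex.I) * X u :=
        funext (fun u => (h u).2.2.2.2.1)
      rw [this]
      exact (h u).1.const_mul _
    exact e1.unique e2
  have hY' : ∀ u, Y' (u + 2 * Real.pi) = Complex.exp (2 * Real.pi * l * Complex.I) * Y' u := by
    intro u
    have e1 : HasDerivAt (fun u => Y (u + 2 * Real.pi)) (Y' (u + 2 * Real.pi)) u :=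
      HasDerivAt.comp_add_const (x := u) (a := 2 * Real.pi) (h (u + 2 * Real.pi)).2.1
    have e2 : HasDerivAt (fun u => Y (u + 2 * Real.pi))
        (Complex.exp (2 * Real.pi * l * Complex.I) * Y' u) u := by
      have : (fun u => Y (u + 2 * Real.pi)) =
          fun u => Complex.exp (2 * Real.pi * l * Complex.I) * Y u :=
        funext (fun u => (h u).2.2.2.2.2)
      rw [this]
      exact (h u).2.1.const_mul _
    exact e1.unique e2
  -- the left eigenvectors
  have key : ∀ μ : ℝ, μ ^ 4 - μ ^ 2 + 9 / 4 - κ ^ 2 = 0 → (∀ k : ℤ, μ - l ≠ k) → ∀ u,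
      κ * (Complex.I * (μ + 2) * X u + X' u) -
        (μ ^ 2 + 2 * μ + 3 / 2) * (Complex.I * (μ - 2) * Y u + Y' u) = 0 := by
    intro μ hμ hne u
    have hμC : (μ : ℂ) ^ 4 - μ ^ 2 + 9 / 4 - κ ^ 2 = 0 := by
      have := congrArg (fun x : ℝ => (x : ℂ)) hμ
      push_cast at this
      exact this
    refine quasi_zero (f := fun u => κ * (Complex.I * (μ + 2) * X u + X' u) -
        (μ ^ 2 + 2 * μ + 3 / 2) * (Complex.I * (μ - 2) * Y u + Y' u)) (μ := μ) (l := l) ?_ ?_ hne u
    · intro u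
      obtain ⟨a1, a2, a3, a4, -, -⟩ := h u
      have := (((a1.const_mul (Complex.I * (μ + 2))).add a3).const_mul (κ : ℂ)).sub
        (((a2.const_mul (Complex.I * (μ - 2))).add a4).const_mul ((μ : ℂ) ^ 2 + 2 * μ + 3 / 2))
      convert! this using 1
      linear_combination (κ * X u * μ * (μ + 2) - (μ ^ 2 + 2 * μ + 3 / 2) * Y u * μ * (μ - 2)) * hI +
        (Y u) * hμC
    · intro u
      obtain ⟨-, -, -, -, b1, b2⟩ := h u
      rw [b1, b2, hX' u, hY' u]
      ring
  -- the three exponents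
  set l' := Real.sqrt (1 - l ^ 2) with hl'
  have hl'2 : l' ^ 2 = 1 - l ^ 2 := Real.sq_sqrt (by nlinarith)
  have hl'0 : 0 < l' := Real.sqrt_pos.2 (by nlinarith)
  have hl'1 : l' < 1 := by nlinarith
  have hE1 := key l' (by
    have : l' ^ 4 = (1 - l ^ 2) ^ 2 := by rw [← hl'2]; ring
    rw [this, hl'2]
    linarith) (by
    intro k hk
    have h1 : (k : ℝ) < 1 := by rw [← hk]; linarith
    have h2' : (-1 : ℝ) < k := by rw [← hk]; linarith
    have h3 : k = 0 := by
      have a1 : k < 1 := by exact_mod_cast h1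
      have a2 : -1 < k := by exact_mod_cast h2'
      omega
    rw [h3, Int.cast_zero] at hk
    apply h2
    have : l' = l := by linarith
    rw [this] at hl'2
    linarith)
  have hE2 := key (-l') (by
    have : (-l') ^ 4 = (1 - l ^ 2) ^ 2 := by rw [← hl'2]; ring
    rw [this]
    have : (-l') ^ 2 = 1 - l ^ 2 := by rw [← hl'2]; ring
    rw [this]
    linarith) (by
    intro k hk
    have h1 : (k : ℝ) < 0 := by rw [← hk]; linarith
    have h2' : (-2 : ℝ) < k := by rw [← hk]; linarith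
    have h3 : k = -1 := by
      have a1 : k < 0 := by exact_mod_cast h1
      have a2 : -2 < k := by exact_mod_cast h2'
      omega
    rw [h3] at hk
    push_cast at hk
    have h5 : l' = 1 - l := by linarith
    rw [h5] at hl'2
    have h6 : l * (1 - l) = 0 := by nlinarith
    rcases mul_eq_zero.1 h6 with h7 | h7 <;> linarith)
  have hE3 := key (-l) (by
    have : (-l) ^ 4 = l ^ 4 := by ring
    rw [this]
    have : (-l) ^ 2 = l ^ 2 := by ring
    rw [this]
    exact hκ) (by
    intro k hk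
    have h1 : (k : ℝ) < 0 := by rw [← hk]; linarith
    have h2' : (-2 : ℝ) < k := by rw [← hk]; linarith
    have h3 : k = -1 := by
      have a1 : k < 0 := by exact_mod_cast h1
      have a2 : -2 < k := by exact_mod_cast h2'
      omega
    rw [h3] at hk
    push_cast at hk
    apply h4
    have : l = 1 / 2 := by linarith
    rw [this]
    norm_num)
  have hκC : (l : ℂ) ^ 4 - l ^ 2 + 9 / 4 - κ ^ 2 = 0 := by
    have := congrArg (fun x : ℝ => (x : ℂ)) hκ
    push_cast at this
    exact this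
  have hl'C : (l' : ℂ) ^ 2 = 1 - l ^ 2 := by exact_mod_cast hl'2
  have hl'0C : (l' : ℂ) ≠ 0 := by exact_mod_cast hl'0.ne'
  have hκ0 : (κ : ℂ) ≠ 0 := by
    intro h0
    have h1 : κ = 0 := by exact_mod_cast h0
    rw [h1] at hκ
    nlinarith [sq_nonneg (l ^ 2 - 1 / 2)]
  have hs : (2 * (l : ℂ) ^ 2 - 1) ≠ 0 := by
    intro h0
    apply h2
    have : (2 * l ^ 2 - 1 : ℝ) = 0 := by exact_mod_cast h0
    linarith
  -- the combinations
  have F1 : ∀ u, κ * (2 * Complex.I * X u + X' u) + 3 * Complex.I * Y u -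
      (l' ^ 2 + 3 / 2) * Y' u = 0 := by
    intro u
    have a := hE1 u
    have b := hE2 u
    push_cast at a b
    linear_combination (a + b) / 2
  have F2 : ∀ u, κ * Complex.I * X u - (l' ^ 2 - 5 / 2) * Complex.I * Y u - 2 * Y' u = 0 := by
    intro u
    have a := hE1 u
    have b := hE2 u
    push_cast at a b
    have : l' * (κ * Complex.I * X u - (l' ^ 2 - 5 / 2) * Complex.I * Y u - 2 * Y' u) = 0 := by
      linear_combination (a - b) / 2
    rcases mul_eq_zero.1 this with h0 | h0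
    · exact absurd h0 hl'0C
    · exact h0
  have F3 : ∀ u, κ * (Complex.I * (2 - l) * X u + X' u) +
      (l ^ 2 - 2 * l + 3 / 2) * (Complex.I * (l + 2) * Y u - Y' u) = 0 := by
    intro u
    have a := hE3 u
    push_cast at a
    linear_combination a
  have G1 : ∀ u, X' u = Complex.I * l * X u := by
    intro u
    have f1 := F1 u
    have f2 := F2 u
    have f3 := F3 u
    rw [hl'C] at f1 f2
    have : κ * (2 * (l : ℂ) ^ 2 - 1) * (X' u - Complex.I * l * X u) = 0 := by
      linear_combination (2 * (l : ℂ) ^ 2 - 1 - (l ^ 2 + 2 * l + 3 / 2)) * f1 +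
        (l * (l ^ 2 + 2 * l + 3 / 2) - (l + 2) * (2 * (l : ℂ) ^ 2 - 1)) * f2 +
        (l ^ 2 + 2 * l + 3 / 2) * f3
    rcases mul_eq_zero.1 this with h0 | h0
    · exact absurd h0 (mul_ne_zero hκ0 hs)
    · linear_combination h0
  have G2 : ∀ u, κ * Y u = -(l ^ 2 + 2 * l + 3 / 2) * X u := by
    intro u
    have f1 := F1 u
    have f2 := F2 u
    have f3 := F3 u
    rw [hl'C] at f1 f2
    have : (2 * (l : ℂ) ^ 2 - 1) * (κ * (κ * Y u + (l ^ 2 + 2 * l + 3 / 2) * X u)) = 0 := by
      linear_combination (-2 * Complex.I * (l ^ 2 + 2 * l + 3 / 2)) * f1 +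
        (-Complex.I * (l ^ 2 + 2 * l + 3 / 2) * (2 * l ^ 2 - 2 * l - 1)) * f2 +
        (2 * Complex.I * (l ^ 2 + 2 * l + 3 / 2)) * f3 +
        ((l ^ 2 + 2 * l + 3 / 2) * X u * κ * (2 * l ^ 2 - 1)
          + (l ^ 2 + 2 * l + 3 / 2) * Y u * (l ^ 2 - 2 * l + 3 / 2) * (2 * l ^ 2 - 1)) * hI
        - (2 * (l : ℂ) ^ 2 - 1) * Y u * hκC
    rcases mul_eq_zero.1 this with h0 | h0
    · exact absurd h0 hs
    · rcases mul_eq_zero.1 h0 with h1 | h1
      · exact absurd h1 hκ0
      · linear_combination h1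
  have G3 := exp_sol (f := X) (c := Complex.I * l) (fun u => by
    rw [← G1 u]
    exact (h u).1)
  refine ⟨X 0 / κ, fun u => ?_⟩
  have e1 : Complex.I * (l : ℂ) * u = l * u * Complex.I := by ring
  have g3 := G3 u
  rw [e1] at g3
  constructor
  · rw [g3]
    field_simp
  · have g2 := G2 u
    rw [g3] at g2
    have : κ * Y u = κ * (- (X 0 / κ) * (l ^ 2 + 2 * l + 3 / 2) * Complex.exp (l * u * Complex.I)) := by
      rw [g2]
      field_simp
    exact mul_left_cancel₀ hκ0 this

theorem t_CIRC : Pool.Agent.D0H95.BF.S_CIRC := circ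

end Pool.Agent.D0H25.BF
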