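import Pool.Agent.D0H95.BF.Stm2

/-! Project BF (helper95), module KEP. -/

set_option autoImplicit false
set_option linter.unusedVariables false

open Filter Topology Set

namespace Pool.Agent.D0H25.BF

open Pool.Agent.D0H95.BF

section

variable {e : ℝ}

theorem one_sub_pos (he : |e| < 1) (u : ℝ) : 0 < 1 - e * Real.cos u := by
  have h1 := abs_lt.1 he
  have h2 := Real.neg_one_le_cos u
  have h3 := Real.cos_le_one u
  have h4 : |e * Real.cos u| < 1 := by
    rw [abs_mul]
    calc |e| * |Real.cos u| ≤ |e| * 1 := mul_le_mul_of_nonneg_left (Real.abs_cos_le_one u) (abs_nonneg _)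
      _ < 1 := by linarith
  have := abs_lt.1 h4
  linarith

/-- the left hand side of Kepler's equation -/
noncomputable def kh (e u : ℝ) : ℝ := u - e * Real.sin u

theorem kh_deriv (e u : ℝ) : HasDerivAt (kh e) (1 - e * Real.cos u) u :=
  (hasDerivAt_id u).sub ((Real.hasDerivAt_sin u).const_mul e)

theorem kh_mono (he : |e| < 1) : StrictMono (kh e) := by
  apply strictMono_of_deriv_pos
  intro u
  rw [(kh_deriv e u).deriv]
  exact one_sub_pos he u

theorem kh_cont (e : ℝ) : Continuous (kh e) := by unfold kh; fun_prop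

theorem kh_surj (he : |e| < 1) : Function.Surjective (kh e) := by
  intro y
  have h1 : ∀ u, u - 1 ≤ kh e u ∧ kh e u ≤ u + 1 := by
    intro u
    have h4 : |e * Real.sin u| ≤ 1 := by
      rw [abs_mul]
      calc |e| * |Real.sin u| ≤ 1 * 1 :=
            mul_le_mul he.le (Real.abs_sin_le_one u) (abs_nonneg _) zero_le_one
        _ = 1 := by ring
    have := abs_le.1 h4
    unfold kh
    constructor <;> linarith
  have h2 : y ∈ Icc (kh e (y - 1)) (kh e (y + 1)) := by
    have a := h1 (y - 1)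
    have b := h1 (y + 1)
    constructor <;> linarith
  obtain ⟨u, -, hu⟩ := intermediate_value_Icc (by linarith : y - 1 ≤ y + 1)
    (kh_cont e).continuousOn h2
  exact ⟨u, hu⟩

theorem norm_ell {A : ℝ} (hA : 0 < A) (he : |e| < 1) (u : ℝ) :
    ‖ell A e u‖ = A * (1 - e * Real.cos u) := by
  have hpos := one_sub_pos he u
  have he2 : 0 ≤ 1 - e ^ 2 := by
    have := abs_lt.1 he
    nlinarith
  have hs := Real.sq_sqrt he2
  rw [ell, norm_mul, Complex.norm_real, Real.norm_of_nonneg hA.le]
  congr 1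
  rw [← Real.sqrt_sq hpos.le, ← Real.sqrt_sq (norm_nonneg _)]
  congr 1
  rw [Complex.sq_norm, Complex.normSq_add_mul_I]
  rw [mul_pow, hs]
  have := Real.sin_sq_add_cos_sq u
  have h2 : Real.sin u ^ 2 = 1 - Real.cos u ^ 2 := by linarith
  rw [h2]
  ring

theorem ell_deriv (A e u : ℝ) : HasDerivAt (fun u => ell A e u)
    ((A : ℂ) * (((- Real.sin u : ℝ) : ℂ) +
      ((Real.sqrt (1 - e ^ 2) * Real.cos u : ℝ) : ℂ) * Complex.I)) u := by
  unfold ell
  have h1 : HasDerivAt (fun u : ℝ => ((Real.cos u - e : ℝ) : ℂ)) ((- Real.sin u : ℝ) : ℂ) u :=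
    ((Real.hasDerivAt_cos u).sub_const e).ofReal_comp
  have h2 : HasDerivAt (fun u : ℝ => ((Real.sqrt (1 - e ^ 2) * Real.sin u : ℝ) : ℂ))
      ((Real.sqrt (1 - e ^ 2) * Real.cos u : ℝ) : ℂ) u :=
    ((Real.hasDerivAt_sin u).const_mul _).ofReal_comp
  exact (h1.add (h2.mul_const Complex.I)).const_mul _

theorem ellv_deriv (A ν : ℝ) (he : |e| < 1) (u : ℝ) : HasDerivAt (fun u => ellv A ν e u)
    (((-(ν * A / (1 - e * Real.cos u) ^ 2) : ℝ) : ℂ) *
      (((Real.cos u - e : ℝ) : ℂ) + ((Real.sqrt (1 - e ^ 2) * Real.sin u : ℝ) : ℂ) * Complex.I)) u := by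
  have hpos := one_sub_pos he u
  unfold ellv
  have hd : HasDerivAt (fun u : ℝ => 1 - e * Real.cos u) (e * Real.sin u) u := by
    have := ((Real.hasDerivAt_cos u).const_mul e).const_sub 1
    convert! this using 1
    ring
  have h0 : HasDerivAt (fun u : ℝ => ((A * ν / (1 - e * Real.cos u) : ℝ) : ℂ))
      ((-(A * ν * (e * Real.sin u)) / (1 - e * Real.cos u) ^ 2 : ℝ) : ℂ) u := by
    have h := (hd.fun_inv hpos.ne').const_mul (A * ν)
    have h' : HasDerivAt (fun u : ℝ => A * ν / (1 - e * Real.cos u))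
        (-(A * ν * (e * Real.sin u)) / (1 - e * Real.cos u) ^ 2) u := by
      convert! h using 1
      ring
    exact h'.ofReal_comp
  have h1 : HasDerivAt (fun u : ℝ => ((- Real.sin u : ℝ) : ℂ)) ((- Real.cos u : ℝ) : ℂ) u :=
    (Real.hasDerivAt_sin u).neg.ofReal_comp
  have h2 : HasDerivAt (fun u : ℝ => ((Real.sqrt (1 - e ^ 2) * Real.cos u : ℝ) : ℂ))
      ((Real.sqrt (1 - e ^ 2) * (- Real.sin u) : ℝ) : ℂ) u :=
    ((Real.hasDerivAt_cos u).const_mul _).ofReal_comp
  have h3 := h0.mul (h1.add (h2.mul_const Complex.I))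
  convert! h3 using 1
  have hne : (1 - e * Real.cos u) ≠ 0 := hpos.ne'
  have hsc := Real.sin_sq_add_cos_sq u
  apply Complex.ext
  · simp only [Pi.add_apply, Complex.mul_re, Complex.add_re, Complex.ofReal_re, Complex.ofReal_im, Complex.I_re,
      Complex.I_im, Complex.add_im, Complex.mul_im]
    have h2 : Real.sin u ^ 2 = 1 - Real.cos u ^ 2 := by linarith
    field_simp
    ring_nf
    rw [h2]
    ring
  · simp only [Pi.add_apply, Complex.mul_re, Complex.add_re, Complex.ofReal_re, Complex.ofReal_im, Complex.I_re,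
      Complex.I_im, Complex.add_im, Complex.mul_im]
    field_simp
    ring

end

theorem kep : S_KEP := by
  intro ν A e hν hA he
  refine ⟨fun u => norm_ell hA he u, ?_⟩
  let E : ℝ ≃o ℝ := (kh_mono he).orderIsoOfSurjective _ (kh_surj he)
  let g : ℝ → ℝ := E.symm
  have hgc : Continuous g := E.symm.continuous
  have hg : ∀ y, kh e (g y) = y := fun y => E.apply_symm_apply y
  have hg' : ∀ u, g (kh e u) = u := fun u => E.symm_apply_apply u
  have hgd : ∀ y, HasDerivAt g (1 - e * Real.cos (g y))⁻¹ y := by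
    intro y
    exact HasDerivAt.of_local_left_inverse hgc.continuousAt (kh_deriv e (g y))
      (one_sub_pos he _).ne' (Eventually.of_forall hg)
  have hud : ∀ t, HasDerivAt (fun t => g (ν * t)) (ν / (1 - e * Real.cos (g (ν * t)))) t := by
    intro t
    have h1 : HasDerivAt (fun t : ℝ => ν * t) ν t := by
      simpa using (hasDerivAt_id t).const_mul ν
    have h2 := (hgd (ν * t)).comp t h1
    convert! h2 using 1
    rw [div_eq_mul_inv]
    ring
  refine ⟨fun t => g (ν * t), ?_, ?_, hud, ?_, ?_, ?_⟩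
  · show g (ν * 0) = 0
    have : kh e 0 = ν * 0 := by simp [kh]
    rw [← this, hg']
  · intro t
    exact hg (ν * t)
  · intro t
    show g (ν * (t + 2 * Real.pi / ν)) = g (ν * t) + 2 * Real.pi
    have : ν * (t + 2 * Real.pi / ν) = kh e (g (ν * t) + 2 * Real.pi) := by
      rw [kh, Real.sin_add_two_pi]
      have := hg (ν * t)
      rw [kh] at this
      have h3 : ν * (t + 2 * Real.pi / ν) = ν * t + 2 * Real.pi := by field_simp
      linarith
    rw [this, hg']
  · intro t
    have h1 := (ell_deriv A e (g (ν * t))).scomp t (hud t)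
    convert! h1 using 1
    have hne : (1 - e * Real.cos (g (ν * t))) ≠ 0 := (one_sub_pos he _).ne'
    rw [ellv, Complex.real_smul, ← mul_assoc]
    congr 1
    push_cast
    ring
  · intro t
    have h1 := (ellv_deriv A ν he (g (ν * t))).scomp t (hud t)
    convert! h1 using 1
    have hne : (1 - e * Real.cos (g (ν * t))) ≠ 0 := (one_sub_pos he _).ne'
    rw [norm_ell hA he, ell, Complex.real_smul, ← mul_assoc, ← mul_assoc]
    congr 1
    rw [← Complex.ofReal_mul, ← Complex.ofReal_mul]
    congr 1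
    field_simp

theorem t_KEP : Pool.Agent.D0H95.BF.S_KEP := kep

end Pool.Agent.D0H25.BF
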