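import Pool.Agent.D0H95.BF.Stm2

/-! Project BF (helper95), module NT. -/

set_option autoImplicit false
set_option linter.unusedVariables false

open Filter Topology Set

namespace Pool.Agent.D0H25.BF

/-- the number of the points with `q f x ∈ ℤ` -/
theorem ncard_pts {f : ℝ → ℝ} {x y : ℝ} (hxy : x < y) (hf : StrictMonoOn f (Icc x y))
    (hc : ContinuousOn f (Icc x y)) {q : ℕ} (hq : 0 < q) :
    {z ∈ Ioc x y | ∃ k : ℤ, q * f z = k}.ncard = (⌊q * f y⌋ - ⌊q * f x⌋).toNat := by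
  have hq' : (0 : ℝ) < q := by exact_mod_cast hq
  rw [← Int.card_Ioc, ← Set.ncard_coe_finset]
  refine Set.ncard_congr (fun z _ => ⌊q * f z⌋) ?_ ?_ ?_
  · rintro z ⟨hz, k, hk⟩
    rw [Finset.coe_Ioc, mem_Ioc, hk, Int.floor_intCast]
    have h1 : f x < f z := hf ⟨le_rfl, hxy.le⟩ ⟨hz.1.le, hz.2⟩ hz.1
    have h2 : f z ≤ f y := hf.monotoneOn ⟨hz.1.le, hz.2⟩ ⟨hxy.le, le_rfl⟩ hz.2
    constructor
    · rw [Int.floor_lt, ← hk]
      exact mul_lt_mul_of_pos_left h1 hq'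
    · rw [Int.le_floor, ← hk]
      exact mul_le_mul_of_nonneg_left h2 hq'.le
  · rintro z z' ⟨hz, k, hk⟩ ⟨hz', k', hk'⟩ h
    rw [hk, hk', Int.floor_intCast, Int.floor_intCast] at h
    apply hf.injOn ⟨hz.1.le, hz.2⟩ ⟨hz'.1.le, hz'.2⟩
    have : (q : ℝ) * f z = q * f z' := by rw [hk, hk', h]
    exact mul_left_cancel₀ hq'.ne' this
  · intro k hk
    rw [Finset.coe_Ioc, mem_Ioc, Int.floor_lt, Int.le_floor] at hk
    have h1 : (k : ℝ) / q ∈ Icc (f x) (f y) := by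
      constructor
      · rw [le_div_iff₀ hq']
        linarith [hk.1]
      · rw [div_le_iff₀ hq']
        linarith [hk.2]
    obtain ⟨z, hz, hzk⟩ := intermediate_value_Icc hxy.le hc h1
    have h2 : (q : ℝ) * f z = k := by
      rw [hzk]
      field_simp
    have h3 : x < z := by
      rcases eq_or_lt_of_le hz.1 with h | h
      · exfalso
        rw [← h] at h2
        linarith [hk.1]
      · exact h
    exact ⟨z, ⟨⟨h3, hz.2⟩, k, h2⟩, by rw [h2, Int.floor_intCast]⟩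

theorem nt_mono {a b : ℝ} {f g : ℝ → ℝ} (hab : a < b) (hf : StrictMonoOn f (Icc a b))
    (hg : StrictMonoOn g (Icc a b)) (hcf : ContinuousOn f (Icc a b))
    (hcg : ContinuousOn g (Icc a b)) (hne : ∀ x ∈ Icc a b, ∀ k : ℤ, g x - f x ≠ k)
    (h : ∀ x ∈ Ioo a b, ∀ q : ℕ, 0 < q → ((∃ k : ℤ, q * f x = k) ↔ (∃ k : ℤ, q * g x = k))) :
    False := by
  -- `g - f` is constant
  have key : ∀ x y, a < x → x < y → y < b → f y - f x = g y - g x := by
    intro x y hax hxy hyb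
    have hsub : Icc x y ⊆ Icc a b := Icc_subset_Icc hax.le hyb.le
    have h1 : ∀ q : ℕ, 0 < q → |(q : ℝ) * ((f y - f x) - (g y - g x))| ≤ 2 := by
      intro q hq
      have hq' : (0 : ℝ) < q := by exact_mod_cast hq
      have e1 := ncard_pts hxy (hf.mono hsub) (hcf.mono hsub) hq
      have e2 := ncard_pts hxy (hg.mono hsub) (hcg.mono hsub) hq
      have e3 : {z ∈ Ioc x y | ∃ k : ℤ, q * f z = k} = {z ∈ Ioc x y | ∃ k : ℤ, q * g z = k} := by
        ext z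
        constructor
        · rintro ⟨hz, hk⟩
          exact ⟨hz, (h z ⟨hax.trans hz.1, hz.2.trans_lt hyb⟩ q hq).1 hk⟩
        · rintro ⟨hz, hk⟩
          exact ⟨hz, (h z ⟨hax.trans hz.1, hz.2.trans_lt hyb⟩ q hq).2 hk⟩
      rw [e3, e2] at e1
      have m1 : ⌊q * f x⌋ ≤ ⌊q * f y⌋ := Int.floor_mono (mul_le_mul_of_nonneg_left
        (hf.monotoneOn (hsub ⟨le_rfl, hxy.le⟩) (hsub ⟨hxy.le, le_rfl⟩) hxy.le) hq'.le)
      have m2 : ⌊q * g x⌋ ≤ ⌊q * g y⌋ := Int.floor_mono (mul_le_mul_of_nonneg_left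
        (hg.monotoneOn (hsub ⟨le_rfl, hxy.le⟩) (hsub ⟨hxy.le, le_rfl⟩) hxy.le) hq'.le)
      have e4 : ⌊q * f y⌋ - ⌊q * f x⌋ = ⌊q * g y⌋ - ⌊q * g x⌋ := by omega
      have e5 : ((⌊q * f y⌋ : ℤ) : ℝ) - ⌊q * f x⌋ = ⌊q * g y⌋ - ⌊q * g x⌋ := by exact_mod_cast e4
      have b1 := Int.floor_le (q * f y)
      have b2 := Int.lt_floor_add_one (q * f y)
      have b3 := Int.floor_le (q * f x)
      have b4 := Int.lt_floor_add_one (q * f x)
      have b5 := Int.floor_le (q * g y)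
      have b6 := Int.lt_floor_add_one (q * g y)
      have b7 := Int.floor_le (q * g x)
      have b8 := Int.lt_floor_add_one (q * g x)
      rw [abs_le]
      constructor <;> nlinarith
    by_contra hcon
    have h2 : 0 < |(f y - f x) - (g y - g x)| := abs_pos.2 (sub_ne_zero.2 hcon)
    obtain ⟨q, hq⟩ := exists_nat_gt (2 / |(f y - f x) - (g y - g x)|)
    have hq0 : 0 < q := by
      have : (0 : ℝ) < q := lt_of_le_of_lt (by positivity) hq
      exact_mod_cast this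
    have h3 := h1 q hq0
    rw [abs_mul, Nat.abs_cast] at h3
    rw [div_lt_iff₀ h2] at hq
    linarith
  -- `q D ∈ ℤ` for large `q`
  obtain ⟨x₀, hx₀a, hx₀b⟩ := exists_between hab
  obtain ⟨x₁, hx₁a, hx₁b⟩ := exists_between hx₀b
  set D := g x₀ - f x₀ with hD
  have hfx : f x₀ < f x₁ := hf ⟨hx₀a.le, hx₀b.le⟩ ⟨(hx₀a.trans hx₁a).le, hx₁b.le⟩ hx₁a
  have h4 : ∀ q : ℕ, 1 / (f x₁ - f x₀) < q → ∃ k : ℤ, (q : ℝ) * D = k := by
    intro q hq
    have h5 : 0 < f x₁ - f x₀ := by linarith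
    have hq0 : (0 : ℝ) < q := lt_trans (by positivity) hq
    rw [div_lt_iff₀ h5] at hq
    have h6 : ((⌊q * f x₁⌋ : ℤ) : ℝ) / q ∈ Icc (f x₀) (f x₁) := by
      have := Int.floor_le (q * f x₁)
      have := Int.lt_floor_add_one (q * f x₁)
      constructor
      · rw [le_div_iff₀ hq0]
        nlinarith
      · rw [div_le_iff₀ hq0]
        linarith
    obtain ⟨z, hz, hzk⟩ := intermediate_value_Icc hx₁a.le (hcf.mono (Icc_subset_Icc hx₀a.le hx₁b.le)) h6
    have h7 : (q : ℝ) * f z = (⌊q * f x₁⌋ : ℤ) := by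
      rw [hzk]
      field_simp
    obtain ⟨k, hk⟩ := (h z ⟨hx₀a.trans_le hz.1, hz.2.trans_lt hx₁b⟩ q (by exact_mod_cast hq0)).1
      ⟨_, h7⟩
    have h8 : g z - f z = D := by
      rcases eq_or_lt_of_le hz.1 with h | h
      · rw [← h]
      · have := key x₀ z hx₀a h (hz.2.trans_lt hx₁b)
        rw [hD]
        linarith
    refine ⟨k - ⌊q * f x₁⌋, ?_⟩
    rw [← h8]
    push_cast
    rw [← hk, ← h7]
    ring
  obtain ⟨q, hq⟩ := exists_nat_gt (1 / (f x₁ - f x₀))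
  obtain ⟨k, hk⟩ := h4 q hq
  obtain ⟨k', hk'⟩ := h4 (q + 1) (by push_cast; linarith)
  refine hne x₀ ⟨hx₀a.le, hx₀b.le⟩ (k' - k) ?_
  push_cast at hk' ⊢
  rw [← hk, ← hk', hD]
  ring

theorem nt : ∀ (a b : ℝ) (f g : ℝ → ℝ), a < b → ContinuousOn f (Icc a b) →
  ContinuousOn g (Icc a b) → InjOn f (Icc a b) → InjOn g (Icc a b) →
  (∀ x ∈ Icc a b, ∀ k : ℤ, f x + g x ≠ k ∧ f x - g x ≠ k) →
  ∃ x ∈ Ioo a b, ∃ q : ℕ, 0 < q ∧
    (((∃ k : ℤ, q * f x = k) ∧ ∀ k : ℤ, q * g x ≠ k) ∨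
      ((∃ k : ℤ, q * g x = k) ∧ ∀ k : ℤ, q * f x ≠ k)) := by
  intro a b f g hab hcf hcg hif hig hne
  by_contra hcon
  have h : ∀ x ∈ Ioo a b, ∀ q : ℕ, 0 < q → ((∃ k : ℤ, q * f x = k) ↔ (∃ k : ℤ, q * g x = k)) := by
    intro x hx q hq
    constructor
    · intro h1
      by_contra h2
      push Not at h2
      exact hcon ⟨x, hx, q, hq, Or.inl ⟨h1, h2⟩⟩
    · intro h1
      by_contra h2
      push Not at h2
      exact hcon ⟨x, hx, q, hq, Or.inr ⟨h1, h2⟩⟩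
  have hneg : ∀ (f : ℝ → ℝ) (x : ℝ) (q : ℕ), (∃ k : ℤ, q * (fun x => - f x) x = k) ↔
      (∃ k : ℤ, q * f x = k) := by
    intro f x q
    constructor
    · rintro ⟨k, hk⟩
      exact ⟨-k, by push_cast; linarith⟩
    · rintro ⟨k, hk⟩
      exact ⟨-k, by push_cast; linarith⟩
  rcases hcf.strictMonoOn_of_injOn_Icc' hab.le hif with hf | hf <;>
    rcases hcg.strictMonoOn_of_injOn_Icc' hab.le hig with hg | hg
  · refine nt_mono hab hf hg hcf hcg (fun x hx k hk => ?_) h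
    refine (hne x hx (-k)).2 ?_
    push_cast
    linarith
  · refine nt_mono (g := fun x => - g x) hab hf (fun x hx y hy hxy => neg_lt_neg (hg hx hy hxy))
      hcf hcg.neg (fun x hx k hk => ?_) (fun x hx q hq => (h x hx q hq).trans (hneg g x q).symm)
    refine (hne x hx (-k)).1 ?_
    push_cast
    linarith
  · refine nt_mono (f := fun x => - f x) hab (fun x hx y hy hxy => neg_lt_neg (hf hx hy hxy)) hg
      hcf.neg hcg (fun x hx k hk => ?_) (fun x hx q hq => (hneg f x q).trans (h x hx q hq))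
    refine (hne x hx k).1 ?_
    linarith
  · refine nt_mono (f := fun x => - f x) (g := fun x => - g x) hab
      (fun x hx y hy hxy => neg_lt_neg (hf hx hy hxy)) (fun x hx y hy hxy => neg_lt_neg (hg hx hy hxy))
      hcf.neg hcg.neg (fun x hx k hk => ?_)
      (fun x hx q hq => ((hneg f x q).trans (h x hx q hq)).trans (hneg g x q).symm)
    refine (hne x hx k).2 ?_
    linarith

theorem t_NT : Pool.Agent.D0H95.BF.S_NT := nt

end Pool.Agent.D0H25.BF
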