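import Pool.Agent.D0H95.BF.Stm2

/-! Project BF (helper95), module PERT: second order perturbation of the Floquet exponent. -/

set_option autoImplicit false
set_option linter.unusedVariables false

open Filter Topology Set MeasureTheory intervalIntegral

namespace Pool.Agent.D0H25.BF

open Pool.Agent.D0H95.BF

open scoped ComplexConjugate

/-! ### Green's formula -/

theorem deriv_per {f f' : ℝ → ℂ} {m : ℂ} (hf : ∀ u, HasDerivAt f (f' u) u)
    (hp : ∀ u, f (u + 2 * Real.pi) = m * f u) (u : ℝ) : f' (u + 2 * Real.pi) = m * f' u := by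
  have e1 : HasDerivAt (fun u => f (u + 2 * Real.pi)) (f' (u + 2 * Real.pi)) u :=
    HasDerivAt.comp_add_const (x := u) (a := 2 * Real.pi) (hf (u + 2 * Real.pi))
  have e2 : HasDerivAt (fun u => f (u + 2 * Real.pi)) (m * f' u) u := by
    have : (fun u => f (u + 2 * Real.pi)) = fun u => m * f u := funext hp
    rw [this]
    exact (hf u).const_mul _
  exact e1.unique e2

theorem conj_deriv {f : ℝ → ℂ} {f' : ℂ} {u : ℝ} (h : HasDerivAt f f' u) :
    HasDerivAt (fun u => conj (f u)) (conj f') u := by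
  have := (Complex.conjCLE.toContinuousLinearMap.hasFDerivAt (x := f u)).comp_hasDerivAt u h
  exact this

theorem green {e p κ : ℝ} {m : ℂ} (hm : conj m * m = 1) {A A' B B' X X' Y Y' RA RB : ℝ → ℂ}
    (hA : ∀ u, HasDerivAt A (A' u) u) (hB : ∀ u, HasDerivAt B (B' u) u)
    (hX : ∀ u, HasDerivAt X (X' u) u) (hY : ∀ u, HasDerivAt Y (Y' u) u)
    (hA' : ∀ u, HasDerivAt (fun u => ((1 - e * Real.cos u : ℝ) : ℂ) * A' u)
      (3 / 2 * A u + κ * B u - 2 * p * Complex.I * A' u) u)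
    (hB' : ∀ u, HasDerivAt (fun u => ((1 - e * Real.cos u : ℝ) : ℂ) * B' u)
      (3 / 2 * B u + κ * A u + 2 * p * Complex.I * B' u) u)
    (hX' : ∀ u, HasDerivAt (fun u => ((1 - e * Real.cos u : ℝ) : ℂ) * X' u)
      (RA u + 3 / 2 * X u + κ * Y u - 2 * p * Complex.I * X' u) u)
    (hY' : ∀ u, HasDerivAt (fun u => ((1 - e * Real.cos u : ℝ) : ℂ) * Y' u)
      (RB u + 3 / 2 * Y u + κ * X u + 2 * p * Complex.I * Y' u) u)
    (pA : ∀ u, A (u + 2 * Real.pi) = m * A u) (pB : ∀ u, B (u + 2 * Real.pi) = m * B u)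
    (pX : ∀ u, X (u + 2 * Real.pi) = m * X u) (pY : ∀ u, Y (u + 2 * Real.pi) = m * Y u)
    (hRA : Continuous RA) (hRB : Continuous RB) :
    ∫ u in (0 : ℝ)..(2 * Real.pi), (conj (A u) * RA u + conj (B u) * RB u) = 0 := by
  let G : ℝ → ℂ := fun u =>
    conj (A u) * (((1 - e * Real.cos u : ℝ) : ℂ) * X' u) -
      conj (((1 - e * Real.cos u : ℝ) : ℂ) * A' u) * X u +
    (conj (B u) * (((1 - e * Real.cos u : ℝ) : ℂ) * Y' u) -
      conj (((1 - e * Real.cos u : ℝ) : ℂ) * B' u) * Y u) +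
    2 * p * Complex.I * (conj (A u) * X u - conj (B u) * Y u)
  have hG : ∀ u, HasDerivAt G (conj (A u) * RA u + conj (B u) * RB u) u := by
    intro u
    have h1 := (conj_deriv (hA u)).mul (hX' u)
    have h2 := (conj_deriv (hA' u)).mul (hX u)
    have h3 := (conj_deriv (hB u)).mul (hY' u)
    have h4 := (conj_deriv (hB' u)).mul (hY u)
    have h5 := (conj_deriv (hA u)).mul (hX u)
    have h6 := (conj_deriv (hB u)).mul (hY u)
    have h7 := ((h1.sub h2).add (h3.sub h4)).add ((h5.sub h6).const_mul (2 * p * Complex.I))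
    convert! h7 using 1
    simp only [map_add, map_sub, map_mul, Complex.conj_ofReal, Complex.conj_I, map_div₀, map_ofNat]
    ring
  have hAc : Continuous A := continuous_iff_continuousAt.2 fun u => (hA u).continuousAt
  have hBc : Continuous B := continuous_iff_continuousAt.2 fun u => (hB u).continuousAt
  have hcont : Continuous (fun u => conj (A u) * RA u + conj (B u) * RB u) := by
    have h1 : Continuous (fun u => conj (A u)) := Complex.continuous_conj.comp hAc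
    have h2 : Continuous (fun u => conj (B u)) := Complex.continuous_conj.comp hBc
    exact (h1.mul hRA).add (h2.mul hRB)
  rw [integral_eq_sub_of_hasDerivAt (fun u _ => hG u) (hcont.intervalIntegrable _ _)]
  have qA := pA 0
  have qB := pB 0
  have qX := pX 0
  have qY := pY 0
  have qA' := deriv_per hA pA 0
  have qB' := deriv_per hB pB 0
  have qX' := deriv_per hX pX 0
  have qY' := deriv_per hY pY 0
  rw [zero_add] at qA qB qX qY qA' qB' qX' qY'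
  simp only [G, qA, qB, qX, qY, qA', qB', qX', qY', Real.cos_two_pi, Real.cos_zero, map_mul,
    Complex.conj_ofReal]
  linear_combination (conj (A 0) * (((1 - e * 1 : ℝ) : ℂ) * X' 0) -
      ((1 - e * 1 : ℝ) : ℂ) * conj (A' 0) * X 0 +
    (conj (B 0) * (((1 - e * 1 : ℝ) : ℂ) * Y' 0) -
      ((1 - e * 1 : ℝ) : ℂ) * conj (B' 0) * Y 0) +
    2 * p * Complex.I * (conj (A 0) * X 0 - conj (B 0) * Y 0)) * hm

/-! ### Exponentials -/

/-- `exp (i (q + k) u)` -/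
noncomputable def Ek (q : ℝ) (k : ℤ) (u : ℝ) : ℂ := Complex.exp (((q : ℂ) + k) * u * Complex.I)

theorem Ek_deriv (q : ℝ) (k : ℤ) (u : ℝ) :
    HasDerivAt (Ek q k) (Complex.I * (q + k) * Ek q k u) u := by
  have h2 : HasDerivAt (fun u : ℝ => ((q : ℂ) + k) * u * Complex.I) (((q : ℂ) + k) * 1 * Complex.I) u :=
    ((Complex.ofRealCLM.hasDerivAt (x := u)).const_mul ((q : ℂ) + k)).mul_const Complex.I
  have := h2.cexp
  convert! this using 1
  simp only [Ek]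
  ring

theorem Ek_cont (q : ℝ) (k : ℤ) : Continuous (Ek q k) :=
  continuous_iff_continuousAt.2 fun u => (Ek_deriv q k u).continuousAt

theorem Ek_add (q : ℝ) (k j : ℤ) (u : ℝ) :
    Ek q (k + j) u = Ek q k u * Complex.exp (j * u * Complex.I) := by
  rw [Ek, Ek, ← Complex.exp_add]
  congr 1
  push_cast
  ring

theorem Ek_cos (q : ℝ) (k : ℤ) (u : ℝ) :
    ((Real.cos u : ℝ) : ℂ) * Ek q k u = (Ek q (k + 1) u + Ek q (k - 1) u) / 2 := by
  have hk : k - 1 = k + (-1) := by ring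
  rw [hk, Ek_add, Ek_add, Complex.ofReal_cos, Complex.cos]
  push_cast
  rw [one_mul, neg_one_mul]
  ring

theorem Ek_sin (q : ℝ) (k : ℤ) (u : ℝ) :
    ((Real.sin u : ℝ) : ℂ) * Ek q k u = -Complex.I * (Ek q (k + 1) u - Ek q (k - 1) u) / 2 := by
  have hk : k - 1 = k + (-1) := by ring
  rw [hk, Ek_add, Ek_add, Complex.ofReal_sin, Complex.sin]
  push_cast
  rw [one_mul, neg_one_mul]
  ring

theorem Ek_per (q : ℝ) (k : ℤ) (u : ℝ) :
    Ek q k (u + 2 * Real.pi) = Complex.exp (2 * Real.pi * q * Complex.I) * Ek q k u := by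
  have h1 : Complex.exp (k * (2 * Real.pi * Complex.I)) = 1 := Complex.exp_int_mul_two_pi_mul_I k
  rw [Ek, Ek, ← Complex.exp_add]
  have h2 : ((q : ℂ) + k) * ((u + 2 * Real.pi : ℝ) : ℂ) * Complex.I =
      (2 * Real.pi * q * Complex.I + ((q : ℂ) + k) * u * Complex.I) +
        k * (2 * Real.pi * Complex.I) := by
    push_cast
    ring
  rw [h2, Complex.exp_add _ (k * (2 * Real.pi * Complex.I)), h1, mul_one]

theorem norm_Ek (q : ℝ) (k : ℤ) (u : ℝ) : ‖Ek q k u‖ = 1 := by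
  have : ((q : ℂ) + k) * u * Complex.I = (((q + k) * u : ℝ) : ℂ) * Complex.I := by push_cast; ring
  rw [Ek, this, Complex.norm_exp_ofReal_mul_I]

theorem conj_Ek_mul (q : ℝ) (k : ℤ) (u : ℝ) :
    conj (Ek q 0 u) * Ek q k u = Complex.exp (k * Complex.I * u) := by
  rw [Ek, Ek, ← Complex.exp_conj, ← Complex.exp_add]
  congr 1
  simp only [map_mul, map_add, Complex.conj_ofReal, Complex.conj_I]
  push_cast
  rw [map_zero]
  ring

theorem int_exp {k : ℤ} (hk : k ≠ 0) :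
    ∫ u in (0 : ℝ)..(2 * Real.pi), Complex.exp (k * Complex.I * u) = 0 := by
  have hc : (k : ℂ) * Complex.I ≠ 0 := mul_ne_zero (by exact_mod_cast hk) Complex.I_ne_zero
  rw [integral_exp_mul_complex hc]
  have h1 : Complex.exp (k * Complex.I * ((2 * Real.pi : ℝ) : ℂ)) = 1 := by
    have := Complex.exp_int_mul_two_pi_mul_I k
    rw [← this]
    congr 1
    push_cast
    ring
  rw [h1]
  simp

/-- the sum of the five exponentials -/
noncomputable def T5 (q : ℝ) (c : ℤ → ℂ) (u : ℝ) : ℂ :=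
  c (-2) * Ek q (-2) u + c (-1) * Ek q (-1) u + c 0 * Ek q 0 u + c 1 * Ek q 1 u + c 2 * Ek q 2 u

theorem T5_cont (q : ℝ) (c : ℤ → ℂ) : Continuous (T5 q c) := by
  unfold T5
  have := Ek_cont q
  fun_prop

theorem norm_T5 (q : ℝ) (c : ℤ → ℂ) {M : ℝ} (hM : ∀ k, ‖c k‖ ≤ M) (u : ℝ) :
    ‖T5 q c u‖ ≤ 5 * M := by
  have h : ∀ k, ‖c k * Ek q k u‖ ≤ M := fun k => by rw [norm_mul, norm_Ek, mul_one]; exact hM k
  unfold T5
  refine (norm_add_le _ _).trans ?_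
  refine (add_le_add ((norm_add_le _ _).trans (add_le_add ((norm_add_le _ _).trans
    (add_le_add ((norm_add_le _ _).trans (add_le_add (h (-2)) (h (-1)))) (h 0))) (h 1)))
    (h 2)).trans ?_
  linarith

theorem int_T5 (q : ℝ) (c : ℤ → ℂ) :
    ∫ u in (0 : ℝ)..(2 * Real.pi), conj (Ek q 0 u) * T5 q c u = 2 * Real.pi * c 0 := by
  have h1 : ∀ u : ℝ, conj (Ek q 0 u) * T5 q c u =
      c (-2) * Complex.exp ((-2 : ℤ) * Complex.I * u) + c (-1) * Complex.exp ((-1 : ℤ) * Complex.I * u) +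
        c 0 * Complex.exp ((0 : ℤ) * Complex.I * u) + c 1 * Complex.exp ((1 : ℤ) * Complex.I * u) +
        c 2 * Complex.exp ((2 : ℤ) * Complex.I * u) := by
    intro u
    rw [← conj_Ek_mul q, ← conj_Ek_mul q, ← conj_Ek_mul q, ← conj_Ek_mul q, ← conj_Ek_mul q, T5]
    ring
  have hi : ∀ (k : ℤ) (d : ℂ), IntervalIntegrable
      (fun u : ℝ => d * Complex.exp (k * Complex.I * u)) volume 0 (2 * Real.pi) := fun k d => by
    apply Continuous.intervalIntegrable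
    fun_prop
  rw [integral_congr (fun u _ => h1 u)]
  rw [integral_add ((((hi _ _).add (hi _ _)).add (hi _ _)).add (hi _ _)) (hi _ _),
    integral_add (((hi _ _).add (hi _ _)).add (hi _ _)) (hi _ _),
    integral_add ((hi _ _).add (hi _ _)) (hi _ _), integral_add (hi _ _) (hi _ _),
    intervalIntegral.integral_const_mul, intervalIntegral.integral_const_mul,
    intervalIntegral.integral_const_mul, intervalIntegral.integral_const_mul,
    intervalIntegral.integral_const_mul, int_exp (k := -2) (by norm_num),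
    int_exp (k := -1) (by norm_num), int_exp (k := 1) (by norm_num),
    int_exp (k := 2) (by norm_num)]
  simp
  ring

/-! ### The test pair -/

/-- the test function -/
noncomputable def tX (q x0 xp xm : ℝ) (u : ℝ) : ℂ :=
  x0 * Ek q 0 u + xp * Ek q 1 u + xm * Ek q (-1) u

/-- its derivative -/
noncomputable def tX' (q x0 xp xm : ℝ) (u : ℝ) : ℂ :=
  Complex.I * (q * x0 * Ek q 0 u + (q + 1) * xp * Ek q 1 u + (q - 1) * xm * Ek q (-1) u)

/-- the coefficients of the rest -/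
noncomputable def cc (e p q κ x0 xp xm y0 yp ym : ℝ) : ℤ → ℝ := fun k =>
  if k = -2 then e / 2 * (q - 2) * (q - 1) * xm else
  if k = -1 then -((q - 1) ^ 2 + 2 * p * (q - 1) + 3 / 2) * xm - κ * ym + e / 2 * (q - 1) * q * x0 else
  if k = 0 then -(q ^ 2 + 2 * p * q + 3 / 2) * x0 - κ * y0 +
    e / 2 * q * ((q - 1) * xm + (q + 1) * xp) else
  if k = 1 then -((q + 1) ^ 2 + 2 * p * (q + 1) + 3 / 2) * xp - κ * yp + e / 2 * (q + 1) * q * x0 else
  if k = 2 then e / 2 * (q + 2) * (q + 1) * xp else 0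

theorem tX_deriv (q x0 xp xm u : ℝ) : HasDerivAt (tX q x0 xp xm) (tX' q x0 xp xm u) u := by
  have := (((Ek_deriv q 0 u).const_mul (x0 : ℂ)).add ((Ek_deriv q 1 u).const_mul (xp : ℂ))).add
    ((Ek_deriv q (-1) u).const_mul (xm : ℂ))
  convert! this using 1
  simp only [tX']
  push_cast
  ring

theorem tX_per (q x0 xp xm u : ℝ) : tX q x0 xp xm (u + 2 * Real.pi) =
    Complex.exp (2 * Real.pi * q * Complex.I) * tX q x0 xp xm u := by
  simp only [tX, Ek_per]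
  ring

theorem tX'_deriv (e p q κ x0 xp xm y0 yp ym u : ℝ) :
    HasDerivAt (fun u => ((1 - e * Real.cos u : ℝ) : ℂ) * tX' q x0 xp xm u)
      (T5 q (fun k => (cc e p q κ x0 xp xm y0 yp ym k : ℂ)) u + 3 / 2 * tX q x0 xp xm u +
        κ * tX q y0 yp ym u - 2 * p * Complex.I * tX' q x0 xp xm u) u := by
  have h1 : HasDerivAt (fun u : ℝ => ((1 - e * Real.cos u : ℝ) : ℂ)) ((e * Real.sin u : ℝ) : ℂ) u := by
    have h : HasDerivAt (fun u : ℝ => 1 - e * Real.cos u) (e * Real.sin u) u := by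
      have := ((Real.hasDerivAt_cos u).const_mul e).const_sub 1
      convert! this using 1
      ring
    exact h.ofReal_comp
  have h2 : HasDerivAt (tX' q x0 xp xm) (-(q ^ 2 * x0 * Ek q 0 u + (q + 1) ^ 2 * xp * Ek q 1 u +
      (q - 1) ^ 2 * xm * Ek q (-1) u)) u := by
    have := ((((Ek_deriv q 0 u).const_mul ((q : ℂ) * x0)).add
      ((Ek_deriv q 1 u).const_mul (((q : ℂ) + 1) * xp))).add
      ((Ek_deriv q (-1) u).const_mul (((q : ℂ) - 1) * xm))).const_mul Complex.I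
    convert! this using 1
    push_cast
    linear_combination (-(q ^ 2 * x0 * Ek q 0 u + (q + 1) ^ 2 * xp * Ek q 1 u +
      (q - 1) ^ 2 * xm * Ek q (-1) u)) * Complex.I_sq
  have h3 := h1.mul h2
  convert! h3 using 1
  have c0 := Ek_cos q 0 u
  have c1 := Ek_cos q 1 u
  have c2 := Ek_cos q (-1) u
  have s0 := Ek_sin q 0 u
  have s1 := Ek_sin q 1 u
  have s2 := Ek_sin q (-1) u
  norm_num at c0 c1 c2 s0 s1 s2
  simp only [T5, tX, tX', cc]
  norm_num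
  linear_combination (-(e * Complex.I * q * x0)) * s0 - (e * Complex.I * (q + 1) * xp) * s1 -
    (e * Complex.I * (q - 1) * xm) * s2 - (e * q ^ 2 * x0) * c0 - (e * (q + 1) ^ 2 * xp) * c1 -
    (e * (q - 1) ^ 2 * xm) * c2 +
    (e * q * x0 * (Ek q 1 u - Ek q (-1) u) / 2 + e * (q + 1) * xp * (Ek q 2 u - Ek q 0 u) / 2 +
      e * (q - 1) * xm * (Ek q 0 u - Ek q (-2) u) / 2 -
      2 * p * (q * x0 * Ek q 0 u + (q + 1) * xp * Ek q 1 u + (q - 1) * xm * Ek q (-1) u)) *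
      Complex.I_sq

/-! ### Bounds -/

theorem bdd (H : ℝ × ℝ × ℝ → ℝ) (hH : Continuous H) (C : ℝ) : ∃ M : ℝ, 0 ≤ M ∧
    ∀ e τ v : ℝ, |e| ≤ 1 → |τ| ≤ C → 0 ≤ v → v ≤ 1 → |H (e, τ, v)| ≤ M := by
  have hK : IsCompact (Icc (-1 : ℝ) 1 ×ˢ (Icc (-C) C ×ˢ Icc (0 : ℝ) 1)) :=
    isCompact_Icc.prod (isCompact_Icc.prod isCompact_Icc)
  obtain ⟨M, hM⟩ := hK.exists_bound_of_continuousOn hH.continuousOn
  refine ⟨max M 0, le_max_right _ _, fun e τ v he hτ hv0 hv1 => ?_⟩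
  have := hM (e, τ, v) ⟨abs_le.1 he, abs_le.1 hτ, hv0, hv1⟩
  rw [Real.norm_eq_abs] at this
  exact this.trans (le_max_left _ _)

theorem bdd2 (H1 H2 : ℝ × ℝ × ℝ → ℝ) (h1 : Continuous H1) (h2 : Continuous H2) (C : ℝ) :
    ∃ M : ℝ, 0 ≤ M ∧ ∀ e τ v : ℝ, |e| ≤ 1 → |τ| ≤ C → 0 ≤ v → v ≤ 1 →
      |τ * H1 (e, τ, v) + e ^ 2 * H2 (e, τ, v)| ≤ M * (|τ| + e ^ 2) := by
  obtain ⟨M1, hM1, b1⟩ := bdd H1 h1 C
  obtain ⟨M2, hM2, b2⟩ := bdd H2 h2 C
  refine ⟨M1 + M2, by positivity, fun e τ v he hτ hv0 hv1 => ?_⟩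
  have c1 := b1 e τ v he hτ hv0 hv1
  have c2 := b2 e τ v he hτ hv0 hv1
  refine (abs_add_le _ _).trans ?_
  rw [abs_mul, abs_mul, abs_of_nonneg (sq_nonneg e)]
  have d1 := mul_le_mul_of_nonneg_left c1 (abs_nonneg τ)
  have d2 := mul_le_mul_of_nonneg_left c2 (sq_nonneg e)
  have d3 := mul_nonneg hM1 (sq_nonneg e)
  have d4 := mul_nonneg hM2 (abs_nonneg τ)
  nlinarith

theorem cc_bound (σ l κ x0 y0 ξp ξm ηp ηm C : ℝ)
    (h0 : -(l ^ 2 + 2 * σ * l + 3 / 2) * x0 - κ * y0 = 0)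
    (hp : -((l + 1) ^ 2 + 2 * σ * (l + 1) + 3 / 2) * ξp - κ * ηp + 1 / 2 * (l + 1) * l * x0 = 0)
    (hm : -((l - 1) ^ 2 + 2 * σ * (l - 1) + 3 / 2) * ξm - κ * ηm + 1 / 2 * (l - 1) * l * x0 = 0) :
    ∃ M : ℝ, 0 ≤ M ∧ ∀ e τ v : ℝ, |e| ≤ 1 → |τ| ≤ C → 0 ≤ v → v ≤ 1 → ∀ k,
      |cc e (σ * (1 - e ^ 2 * v)) (l + τ) κ x0 (e * ξp) (e * ξm) y0 (e * ηp) (e * ηm) k| ≤
        M * (|τ| + e ^ 2) := by
  obtain ⟨N2, g2, b2⟩ := bdd2 (fun x => 0) (fun x => (l + x.2.1 - 2) * (l + x.2.1 - 1) * ξm / 2)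
    (by fun_prop) (by fun_prop) C
  obtain ⟨N1, g1, b1⟩ := bdd2
    (fun x => x.1 * (-(2 * (l - 1) + x.2.1 + 2 * σ) * ξm + (l + (l - 1) + x.2.1) * x0 / 2))
    (fun x => 2 * σ * x.1 * x.2.2 * (l - 1 + x.2.1) * ξm) (by fun_prop) (by fun_prop) C
  obtain ⟨Z, g0, b0⟩ := bdd2
    (fun x => -(2 * l + x.2.1 + 2 * σ) * x0)
    (fun x => 2 * σ * x.2.2 * (l + x.2.1) * x0 +
      (l + x.2.1) / 2 * ((l + x.2.1 - 1) * ξm + (l + x.2.1 + 1) * ξp))
    (by fun_prop) (by fun_prop) C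
  obtain ⟨P1, g3, b3⟩ := bdd2
    (fun x => x.1 * (-(2 * (l + 1) + x.2.1 + 2 * σ) * ξp + (l + (l + 1) + x.2.1) * x0 / 2))
    (fun x => 2 * σ * x.1 * x.2.2 * (l + 1 + x.2.1) * ξp) (by fun_prop) (by fun_prop) C
  obtain ⟨P2, g4, b4⟩ := bdd2 (fun x => 0) (fun x => (l + x.2.1 + 2) * (l + x.2.1 + 1) * ξp / 2)
    (by fun_prop) (by fun_prop) C
  refine ⟨N2 + N1 + Z + P1 + P2, by positivity, fun e τ v he hτ hv0 hv1 k => ?_⟩
  have hg : 0 ≤ |τ| + e ^ 2 := by positivity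
  have a2 := b2 e τ v he hτ hv0 hv1
  have a1 := b1 e τ v he hτ hv0 hv1
  have a0 := b0 e τ v he hτ hv0 hv1
  have a3 := b3 e τ v he hτ hv0 hv1
  have a4 := b4 e τ v he hτ hv0 hv1
  simp only at a2 a1 a0 a3 a4
  have hsum : ∀ {N : ℝ}, N ≤ N2 + N1 + Z + P1 + P2 → N * (|τ| + e ^ 2) ≤
      (N2 + N1 + Z + P1 + P2) * (|τ| + e ^ 2) := fun h => mul_le_mul_of_nonneg_right h hg
  unfold cc
  split_ifs with k2 k1 k0 k3 k4
  · refine le_trans (le_of_eq ?_) (a2.trans (hsum (by linarith)))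
    congr 1
    ring
  · refine le_trans (le_of_eq ?_) (a1.trans (hsum (by linarith)))
    congr 1
    linear_combination e * hm
  · refine le_trans (le_of_eq ?_) (a0.trans (hsum (by linarith)))
    congr 1
    linear_combination h0
  · refine le_trans (le_of_eq ?_) (a3.trans (hsum (by linarith)))
    congr 1
    linear_combination e * hp
  · refine le_trans (le_of_eq ?_) (a4.trans (hsum (by linarith)))
    congr 1
    ring
  · rw [abs_zero]
    positivity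

/-- the main term -/
theorem main_term (l κ ξp ξm ηp ηm C : ℝ) (hl1 : 2 * l + 1 ≠ 0) (hl2 : 2 * l - 1 ≠ 0)
    (hl3 : 2 * l ^ 2 - 1 ≠ 0)
    (hκ : l ^ 4 - l ^ 2 + 9 / 4 - κ ^ 2 = 0)
    (hξp : ξp = κ * (l ^ 2 + l + 1) / (2 * (2 * l + 1)))
    (hηp : ηp = -(l ^ 2 + 2 * l + 3 / 2) * (l ^ 2 + l + 3) / (2 * (2 * l + 1)))
    (hξm : ξm = -κ * (l ^ 2 - l + 3) / (2 * (2 * l - 1)))
    (hηm : ηm = (l ^ 2 + 2 * l + 3 / 2) * (l ^ 2 - l + 1) / (2 * (2 * l - 1))) :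
    ∃ M : ℝ, 0 ≤ M ∧ ∀ e τ v : ℝ, |e| ≤ 1 → |τ| ≤ C → |τ| ≤ C * |e| → 0 ≤ v → v ≤ 1 →
      v = 1 / 2 + e ^ 2 * v ^ 2 / 2 →
      |κ * cc e (1 * (1 - e ^ 2 * v)) (l + τ) κ κ (e * ξp) (e * ξm)
          (-(l ^ 2 + 2 * l + 3 / 2)) (e * ηp) (e * ηm) 0 +
        (-(l ^ 2 + 2 * l + 3 / 2)) * cc e ((-1) * (1 - e ^ 2 * v)) (l + τ) κ
          (-(l ^ 2 + 2 * l + 3 / 2)) (e * ηp) (e * ηm) κ (e * ξp) (e * ξm) 0 +
        (l ^ 2 + 2 * l + 3 / 2) * (2 * l * (2 * l ^ 2 - 1)) *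
          (τ - l * (6 * l ^ 2 - 7) * (l ^ 2 - 1) / (4 * (4 * l ^ 2 - 1) * (2 * l ^ 2 - 1)) * e ^ 2)|
        ≤ M * (|e| * (|τ| + e ^ 2)) := by
  obtain ⟨mp, hmp⟩ : ∃ mp, mp = κ * ξp - (l ^ 2 + 2 * l + 3 / 2) * ηp := ⟨_, rfl⟩
  obtain ⟨mm, hmm⟩ : ∃ mm, mm = κ * ξm - (l ^ 2 + 2 * l + 3 / 2) * ηm := ⟨_, rfl⟩
  have h4 : 4 * l ^ 2 - 1 ≠ 0 := by
    have : 4 * l ^ 2 - 1 = (2 * l + 1) * (2 * l - 1) := by ring
    rw [this]
    exact mul_ne_zero hl1 hl2
  -- the constant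
  have hcoef : (l ^ 2 + 2 * l + 3 / 2) * (2 * l * (2 * l ^ 2 - 1)) *
      (l * (6 * l ^ 2 - 7) * (l ^ 2 - 1) / (4 * (4 * l ^ 2 - 1) * (2 * l ^ 2 - 1))) =
      1 / 2 * l * ((l - 1) * mm + (l + 1) * mp) - 4 * l ^ 2 * (l ^ 2 + 2 * l + 3 / 2) := by
    have h5 : κ ^ 2 = (l ^ 2 + 2 * l + 3 / 2) * (l ^ 2 - 2 * l + 3 / 2) := by linarith
    obtain ⟨c, hc⟩ : ∃ c, c = l * (6 * l ^ 2 - 7) * (l ^ 2 - 1) /
      (4 * (4 * l ^ 2 - 1) * (2 * l ^ 2 - 1)) := ⟨_, rfl⟩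
    have hc' : c * (4 * (4 * l ^ 2 - 1) * (2 * l ^ 2 - 1)) = l * (6 * l ^ 2 - 7) * (l ^ 2 - 1) := by
      rw [hc, div_mul_cancel₀]
      exact mul_ne_zero (mul_ne_zero (by norm_num) h4) hl3
    have e1 : ξp * (2 * (2 * l + 1)) = κ * (l ^ 2 + l + 1) := by
      rw [hξp, div_mul_cancel₀]
      exact mul_ne_zero (by norm_num) hl1
    have e2 : ηp * (2 * (2 * l + 1)) = -(l ^ 2 + 2 * l + 3 / 2) * (l ^ 2 + l + 3) := by
      rw [hηp, div_mul_cancel₀]
      exact mul_ne_zero (by norm_num) hl1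
    have e3 : ξm * (2 * (2 * l - 1)) = -κ * (l ^ 2 - l + 3) := by
      rw [hξm, div_mul_cancel₀]
      exact mul_ne_zero (by norm_num) hl2
    have e4 : ηm * (2 * (2 * l - 1)) = (l ^ 2 + 2 * l + 3 / 2) * (l ^ 2 - l + 1) := by
      rw [hηm, div_mul_cancel₀]
      exact mul_ne_zero (by norm_num) hl2
    have f1 : mp * (2 * (2 * l + 1)) = (l ^ 2 + 2 * l + 3 / 2) *
        ((l ^ 2 - 2 * l + 3 / 2) * (l ^ 2 + l + 1) + (l ^ 2 + 2 * l + 3 / 2) * (l ^ 2 + l + 3)) := by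
      rw [hmp]
      linear_combination κ * e1 - (l ^ 2 + 2 * l + 3 / 2) * e2 + (l ^ 2 + l + 1) * h5
    have f2 : mm * (2 * (2 * l - 1)) = -(l ^ 2 + 2 * l + 3 / 2) *
        ((l ^ 2 - 2 * l + 3 / 2) * (l ^ 2 - l + 3) + (l ^ 2 + 2 * l + 3 / 2) * (l ^ 2 - l + 1)) := by
      rw [hmm]
      linear_combination κ * e3 - (l ^ 2 + 2 * l + 3 / 2) * e4 - (l ^ 2 - l + 3) * h5
    rw [← hc]
    have h6 : (l ^ 2 + 2 * l + 3 / 2) * (2 * l * (2 * l ^ 2 - 1)) * c * (4 * l ^ 2 - 1) =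
        (1 / 2 * l * ((l - 1) * mm + (l + 1) * mp) - 4 * l ^ 2 * (l ^ 2 + 2 * l + 3 / 2)) *
          (4 * l ^ 2 - 1) := by
      linear_combination (l ^ 2 + 2 * l + 3 / 2) * l / 2 * hc' -
        1 / 4 * l * (l - 1) * (2 * l + 1) * f2 - 1 / 4 * l * (l + 1) * (2 * l - 1) * f1
    exact mul_right_cancel₀ h4 h6
  obtain ⟨M1, hM1, b1⟩ := bdd (fun x => -(l ^ 2 + 2 * l + 3 / 2) * (2 * l ^ 2 + 3))
    (by fun_prop) C
  obtain ⟨M2, hM2, b2⟩ := bdd (fun x => -8 * (l ^ 2 + 2 * l + 3 / 2) * l * x.2.2 +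
    1 / 2 * (2 * l - 1 + x.2.1) * mm + 1 / 2 * (2 * l + 1 + x.2.1) * mp) (by fun_prop) C
  obtain ⟨M3, hM3, b3⟩ := bdd (fun x => -(4 * l ^ 2 * (l ^ 2 + 2 * l + 3 / 2) * x.2.2 ^ 2))
    (by fun_prop) C
  refine ⟨M1 * |C| + M2 + M3, by positivity, fun e τ v he hτ hτ' hv0 hv1 hv => ?_⟩
  have c1 := b1 e τ v he hτ hv0 hv1
  have c2 := b2 e τ v he hτ hv0 hv1
  have c3 := b3 e τ v he hτ hv0 hv1
  simp only at c1 c2 c3
  have hC : 0 ≤ C := (abs_nonneg τ).trans hτ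
  have key : κ * cc e (1 * (1 - e ^ 2 * v)) (l + τ) κ κ (e * ξp) (e * ξm)
          (-(l ^ 2 + 2 * l + 3 / 2)) (e * ηp) (e * ηm) 0 +
        (-(l ^ 2 + 2 * l + 3 / 2)) * cc e ((-1) * (1 - e ^ 2 * v)) (l + τ) κ
          (-(l ^ 2 + 2 * l + 3 / 2)) (e * ηp) (e * ηm) κ (e * ξp) (e * ξm) 0 +
        (l ^ 2 + 2 * l + 3 / 2) * (2 * l * (2 * l ^ 2 - 1)) *
          (τ - l * (6 * l ^ 2 - 7) * (l ^ 2 - 1) / (4 * (4 * l ^ 2 - 1) * (2 * l ^ 2 - 1)) * e ^ 2) =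
      τ ^ 2 * (-(l ^ 2 + 2 * l + 3 / 2) * (2 * l ^ 2 + 3)) +
      e ^ 2 * τ * (-8 * (l ^ 2 + 2 * l + 3 / 2) * l * v +
        1 / 2 * (2 * l - 1 + τ) * mm + 1 / 2 * (2 * l + 1 + τ) * mp) +
      e ^ 4 * (-(4 * l ^ 2 * (l ^ 2 + 2 * l + 3 / 2) * v ^ 2)) := by
    have e1 : (l ^ 2 + 2 * l + 3 / 2) * (2 * l * (2 * l ^ 2 - 1)) *
          (τ - l * (6 * l ^ 2 - 7) * (l ^ 2 - 1) / (4 * (4 * l ^ 2 - 1) * (2 * l ^ 2 - 1)) * e ^ 2) =
        (l ^ 2 + 2 * l + 3 / 2) * (2 * l * (2 * l ^ 2 - 1)) * τ -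
        (1 / 2 * l * ((l - 1) * mm + (l + 1) * mp) - 4 * l ^ 2 * (l ^ 2 + 2 * l + 3 / 2)) * e ^ 2 := by
      rw [← hcoef]; ring
    rw [e1, hmp, hmm]
    simp only [cc]
    norm_num
    linear_combination (-(2 * (l ^ 2 + 2 * l + 3 / 2) -
      ((l + τ) ^ 2 + 2 * (1 - e ^ 2 * v) * (l + τ) + 3 / 2))) * hκ -
      8 * l ^ 2 * (l ^ 2 + 2 * l + 3 / 2) * e ^ 2 * hv
  rw [key]
  have he2 : e ^ 2 ≤ |e| := by
    rw [← sq_abs, sq]
    exact mul_le_of_le_one_left (abs_nonneg e) he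
  have hτ2 : τ ^ 2 ≤ C * (|e| * |τ|) := by
    rw [← sq_abs, sq, ← mul_assoc]
    exact mul_le_mul_of_nonneg_right hτ' (abs_nonneg τ)
  have t1 : |τ ^ 2 * (-(l ^ 2 + 2 * l + 3 / 2) * (2 * l ^ 2 + 3))| ≤ M1 * |C| * (|e| * |τ|) := by
    rw [abs_mul, abs_of_nonneg (sq_nonneg τ), abs_of_nonneg hC]
    calc _ ≤ (C * (|e| * |τ|)) * M1 := mul_le_mul hτ2 c1 (abs_nonneg _) (by positivity)
      _ = _ := by ring
  have t2 : |e ^ 2 * τ * (-8 * (l ^ 2 + 2 * l + 3 / 2) * l * v +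
        1 / 2 * (2 * l - 1 + τ) * mm + 1 / 2 * (2 * l + 1 + τ) * mp)| ≤ M2 * (|e| * |τ|) := by
    rw [abs_mul, abs_mul, abs_of_nonneg (sq_nonneg e)]
    calc _ ≤ (|e| * |τ|) * M2 := mul_le_mul (mul_le_mul_of_nonneg_right he2 (abs_nonneg _)) c2
          (abs_nonneg _) (by positivity)
      _ = _ := by ring
  have t3 : |e ^ 4 * (-(4 * l ^ 2 * (l ^ 2 + 2 * l + 3 / 2) * v ^ 2))| ≤ M3 * (|e| * e ^ 2) := by
    have he4 : e ^ 4 = e ^ 2 * e ^ 2 := by ring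
    rw [abs_mul, he4, abs_of_nonneg (by positivity : 0 ≤ e ^ 2 * e ^ 2)]
    calc _ ≤ (|e| * e ^ 2) * M3 := mul_le_mul (mul_le_mul_of_nonneg_right he2 (sq_nonneg _)) c3
          (abs_nonneg _) (by positivity)
      _ = _ := by ring
  refine (abs_add_le _ _).trans ((add_le_add ((abs_add_le _ _).trans (add_le_add t1 t2)) t3).trans ?_)
  have g1 : 0 ≤ |e| * |τ| := by positivity
  have g2 : 0 ≤ |e| * e ^ 2 := by positivity
  have g3 : 0 ≤ M1 * |C| := by positivity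
  have g4 := mul_nonneg hM3 g1
  have g5 := mul_nonneg hM2 g2
  have g6 := mul_nonneg g3 g2
  have g7 : (M1 * |C| + M2 + M3) * (|e| * (|τ| + e ^ 2)) = M1 * |C| * (|e| * |τ|) +
      M2 * (|e| * |τ|) + M3 * (|e| * e ^ 2) + (M3 * (|e| * |τ|) + M2 * (|e| * e ^ 2) +
        M1 * |C| * (|e| * e ^ 2)) := by ring
  rw [g7]
  linarith

theorem norm_exp_sub (a b : ℝ) :
    ‖Complex.exp (a * Complex.I) - Complex.exp (b * Complex.I)‖ ≤ |a - b| := by
  have h1 : Complex.exp (a * Complex.I) - Complex.exp (b * Complex.I) =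
      Complex.exp (b * Complex.I) * (Complex.exp (Complex.I * ((a - b : ℝ) : ℂ)) - 1) := by
    rw [mul_sub, ← Complex.exp_add, mul_one]
    congr 2
    push_cast
    ring
  rw [h1, norm_mul, Complex.norm_exp_ofReal_mul_I, one_mul]
  exact Real.norm_exp_I_mul_ofReal_sub_one_le

theorem close_E {A : ℂ} {κ l q u C₁ C₂ : ℝ} (hu : u ∈ Icc (0 : ℝ) (2 * Real.pi))
    (h1 : ‖A - κ * Complex.exp (l * u * Complex.I)‖ ≤ C₁) (h2 : |q - l| ≤ C₂) :
    ‖conj (Ek q 0 u) * κ - conj A‖ ≤ |κ| * (2 * Real.pi * C₂) + C₁ := by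
  have e1 : conj (Ek q 0 u) * κ - conj A =
      conj (κ * (Ek q 0 u - Complex.exp (l * u * Complex.I)) -
        (A - κ * Complex.exp (l * u * Complex.I))) := by
    simp only [map_sub, map_mul, Complex.conj_ofReal]
    ring
  rw [e1, Complex.norm_conj]
  refine (norm_sub_le _ _).trans (add_le_add ?_ h1)
  rw [norm_mul, Complex.norm_real, Real.norm_eq_abs]
  refine mul_le_mul_of_nonneg_left ?_ (abs_nonneg _)
  have e2 : Ek q 0 u = Complex.exp (((q * u : ℝ) : ℂ) * Complex.I) := by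
    rw [Ek]
    congr 1
    push_cast
    ring
  have e3 : Complex.exp (l * u * Complex.I) = Complex.exp (((l * u : ℝ) : ℂ) * Complex.I) := by
    push_cast
    rfl
  rw [e2, e3]
  refine (norm_exp_sub _ _).trans ?_
  rw [← sub_mul, abs_mul, abs_of_nonneg hu.1, mul_comm (2 * Real.pi) C₂]
  exact mul_le_mul h2 hu.2 hu.1 ((abs_nonneg _).trans h2)

theorem t_PERT : S_PERT := by
  intro κ l δ C Λ A A' B B' hl0 hl1 h4 h2 hκ hδ0 hδ1 hode hclose
  have hpi := Real.pi_pos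
  have hC : 0 ≤ C := by
    have h := (hclose (δ / 2) (by rw [abs_of_pos (by positivity)]; linarith)).1
    have h' := (abs_nonneg _).trans h
    rw [abs_of_pos (by positivity : 0 < δ / 2)] at h'
    by_contra hcon
    push Not at hcon
    nlinarith
  have hn1 : 2 * l + 1 ≠ 0 := by positivity
  have hn2 : 2 * l - 1 ≠ 0 := by
    intro h
    apply h4
    have : l = 1 / 2 := by linarith
    rw [this]
    norm_num
  have hn3 : 2 * l ^ 2 - 1 ≠ 0 := by
    intro h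
    apply h2
    linarith
  obtain ⟨s, hs⟩ : ∃ s, s = l ^ 2 + 2 * l + 3 / 2 := ⟨_, rfl⟩
  have hs0 : 0 < s := by rw [hs]; positivity
  have h5 : κ ^ 2 = s * (l ^ 2 - 2 * l + 3 / 2) := by rw [hs]; linarith
  obtain ⟨ξp, hξp⟩ : ∃ x, x = κ * (l ^ 2 + l + 1) / (2 * (2 * l + 1)) := ⟨_, rfl⟩
  obtain ⟨ηp, hηp⟩ : ∃ x, x = -(l ^ 2 + 2 * l + 3 / 2) * (l ^ 2 + l + 3) / (2 * (2 * l + 1)) :=
    ⟨_, rfl⟩
  obtain ⟨ξm, hξm⟩ : ∃ x, x = -κ * (l ^ 2 - l + 3) / (2 * (2 * l - 1)) := ⟨_, rfl⟩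
  obtain ⟨ηm, hηm⟩ : ∃ x, x = (l ^ 2 + 2 * l + 3 / 2) * (l ^ 2 - l + 1) / (2 * (2 * l - 1)) :=
    ⟨_, rfl⟩
  have e1 : ξp * (2 * (2 * l + 1)) = κ * (l ^ 2 + l + 1) := by
    rw [hξp, div_mul_cancel₀]
    exact mul_ne_zero (by norm_num) hn1
  have e2 : ηp * (2 * (2 * l + 1)) = -s * (l ^ 2 + l + 3) := by
    rw [hηp, div_mul_cancel₀, hs]
    exact mul_ne_zero (by norm_num) hn1
  have e3 : ξm * (2 * (2 * l - 1)) = -κ * (l ^ 2 - l + 3) := by
    rw [hξm, div_mul_cancel₀]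
    exact mul_ne_zero (by norm_num) hn2
  have e4 : ηm * (2 * (2 * l - 1)) = s * (l ^ 2 - l + 1) := by
    rw [hηm, div_mul_cancel₀, hs]
    exact mul_ne_zero (by norm_num) hn2
  have hn1' : (2 * (2 * l + 1)) ≠ 0 := mul_ne_zero (by norm_num) hn1
  have hn2' : (2 * (2 * l - 1)) ≠ 0 := mul_ne_zero (by norm_num) hn2
  -- the bounds of the rests
  obtain ⟨M, hM, main⟩ := main_term l κ ξp ξm ηp ηm C hn1 hn2 hn3 hκ hξp hηp hξm hηm
  rw [← hs] at main
  obtain ⟨M1, hM1, bA⟩ := cc_bound 1 l κ κ (-s) ξp ξm ηp ηm C (by rw [hs]; ring) (by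
    apply mul_right_cancel₀ hn1'
    linear_combination (-((l + 1) ^ 2 + 2 * 1 * (l + 1) + 3 / 2)) * e1 - κ * e2 +
      κ * (l ^ 2 + l + 3) * hs) (by
    apply mul_right_cancel₀ hn2'
    linear_combination (-((l - 1) ^ 2 + 2 * 1 * (l - 1) + 3 / 2)) * e3 - κ * e4 -
      κ * (l ^ 2 - l + 1) * hs)
  obtain ⟨M2, hM2, bB⟩ := cc_bound (-1) l κ (-s) κ ηp ηm ξp ξm C (by linarith) (by
    apply mul_right_cancel₀ hn1'
    linear_combination (-((l + 1) ^ 2 + 2 * (-1) * (l + 1) + 3 / 2)) * e2 - κ * e1 -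
      (l ^ 2 + l + 1) * h5) (by
    apply mul_right_cancel₀ hn2'
    linear_combination (-((l - 1) ^ 2 + 2 * (-1) * (l - 1) + 3 / 2)) * e4 - κ * e3 +
      (l ^ 2 - l + 3) * h5)
  obtain ⟨c, hc⟩ : ∃ c, c = l * (6 * l ^ 2 - 7) * (l ^ 2 - 1) /
    (4 * (4 * l ^ 2 - 1) * (2 * l ^ 2 - 1)) := ⟨_, rfl⟩
  rw [← hc] at main
  obtain ⟨C₂, hC₂⟩ : ∃ C₂, C₂ = (2 * Real.pi * (|κ| + s) + 1) * C := ⟨_, rfl⟩
  have hC₂0 : 0 ≤ C₂ := by rw [hC₂]; positivity
  -- the estimate for one `e`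
  have key : ∀ e, |e| < δ → |s * (2 * l * (2 * l ^ 2 - 1)) * ((Λ e - l) - c * e ^ 2)| ≤
      (M + 5 * C₂ * (M1 + M2)) * (|e| * (|Λ e - l| + e ^ 2)) := by
    intro e he
    have he1 : |e| ≤ 1 := by linarith
    obtain ⟨hτe, hcl⟩ := hclose e he
    have he2 : e ^ 2 ≤ 1 := by
      rw [← sq_abs]
      nlinarith [abs_nonneg e]
    obtain ⟨τ, hτ⟩ : ∃ τ, τ = Λ e - l := ⟨_, rfl⟩
    have hq : Λ e = l + τ := by rw [hτ]; ring
    rw [← hτ] at hτe
    have hτC : |τ| ≤ C := hτe.trans (by nlinarith)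
    have hp0 := Real.sqrt_nonneg (1 - e ^ 2)
    have hp2 := Real.sq_sqrt (by linarith : 0 ≤ 1 - e ^ 2)
    obtain ⟨v, hv⟩ : ∃ v, v = 1 / (1 + Real.sqrt (1 - e ^ 2)) := ⟨_, rfl⟩
    have hv' : v * (1 + Real.sqrt (1 - e ^ 2)) = 1 := by
      rw [hv, div_mul_cancel₀]
      positivity
    have hv0 : 0 ≤ v := by rw [hv]; positivity
    have hv1 : v ≤ 1 := by
      rw [hv, div_le_one (by positivity)]
      linarith
    have hpv : Real.sqrt (1 - e ^ 2) = 1 * (1 - e ^ 2 * v) := by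
      linear_combination (1 - Real.sqrt (1 - e ^ 2)) * hv' + v * hp2
    have hv2 : v = 1 / 2 + e ^ 2 * v ^ 2 / 2 := by
      rw [hpv] at hv'
      linear_combination 1 / 2 * hv'
    have hmain := main e τ v he1 hτC hτe hv0 hv1 hv2
    -- the functions
    obtain ⟨c1, hc1⟩ : ∃ c1, c1 = cc e (1 * (1 - e ^ 2 * v)) (l + τ) κ κ (e * ξp) (e * ξm)
      (-s) (e * ηp) (e * ηm) := ⟨_, rfl⟩
    obtain ⟨c2, hc2⟩ : ∃ c2, c2 = cc e ((-1) * (1 - e ^ 2 * v)) (l + τ) κ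
      (-s) (e * ηp) (e * ηm) κ (e * ξp) (e * ξm) := ⟨_, rfl⟩
    have bA' : ∀ k, ‖((c1 k : ℝ) : ℂ)‖ ≤ M1 * (|τ| + e ^ 2) := fun k => by
      rw [Complex.norm_real, Real.norm_eq_abs, hc1]
      exact bA e τ v he1 hτC hv0 hv1 k
    have bB' : ∀ k, ‖((c2 k : ℝ) : ℂ)‖ ≤ M2 * (|τ| + e ^ 2) := fun k => by
      rw [Complex.norm_real, Real.norm_eq_abs, hc2]
      exact bB e τ v he1 hτC hv0 hv1 k
    rw [← hc1, ← hc2] at hmain
    have hm : conj (Complex.exp (2 * Real.pi * (l + τ : ℝ) * Complex.I)) *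
        Complex.exp (2 * Real.pi * (l + τ : ℝ) * Complex.I) = 1 := by
      rw [← Complex.exp_conj, ← Complex.exp_add]
      simp only [map_mul, Complex.conj_ofReal, Complex.conj_I, map_ofNat]
      rw [← Complex.exp_zero]
      congr 1
      ring
    have hgreen := green (e := e) (p := 1 * (1 - e ^ 2 * v)) (κ := κ) hm
      (A := A e) (A' := A' e) (B := B e) (B' := B' e)
      (X := tX (l + τ) κ (e * ξp) (e * ξm)) (X' := tX' (l + τ) κ (e * ξp) (e * ξm))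
      (Y := tX (l + τ) (-s) (e * ηp) (e * ηm)) (Y' := tX' (l + τ) (-s) (e * ηp) (e * ηm))
      (RA := T5 (l + τ) (fun k => ((c1 k : ℝ) : ℂ))) (RB := T5 (l + τ) (fun k => ((c2 k : ℝ) : ℂ)))
      (fun u => (hode e he u).1) (fun u => (hode e he u).2.1)
      (fun u => tX_deriv _ _ _ _ u) (fun u => tX_deriv _ _ _ _ u)
      (fun u => by
        have := (hode e he u).2.2.1
        rwa [hpv] at this)
      (fun u => by
        have := (hode e he u).2.2.2.1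
        rwa [hpv] at this)
      (fun u => by
        rw [hc1]
        exact tX'_deriv e (1 * (1 - e ^ 2 * v)) (l + τ) κ κ (e * ξp) (e * ξm) (-s) (e * ηp)
          (e * ηm) u)
      (fun u => by
        rw [hc2]
        refine (tX'_deriv e ((-1) * (1 - e ^ 2 * v)) (l + τ) κ (-s) (e * ηp) (e * ηm) κ (e * ξp)
          (e * ξm) u).congr_deriv ?_
        push_cast
        ring)
      (fun u => by
        have := (hode e he u).2.2.2.2.1
        rwa [hq] at this)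
      (fun u => by
        have := (hode e he u).2.2.2.2.2
        rwa [hq] at this)
      (fun u => tX_per _ _ _ _ u) (fun u => tX_per _ _ _ _ u)
      (T5_cont _ _) (T5_cont _ _)
    -- the integral
    have hAc : Continuous (A e) := continuous_iff_continuousAt.2 fun u =>
      (hode e he u).1.continuousAt
    have hBc : Continuous (B e) := continuous_iff_continuousAt.2 fun u =>
      (hode e he u).2.1.continuousAt
    have cE : Continuous (fun u => conj (Ek (l + τ) 0 u)) :=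
      Complex.continuous_conj.comp (Ek_cont _ _)
    have cA : Continuous (fun u => conj (A e u)) := Complex.continuous_conj.comp hAc
    have cB : Continuous (fun u => conj (B e u)) := Complex.continuous_conj.comp hBc
    have cRA : Continuous (T5 (l + τ) (fun k => ((c1 k : ℝ) : ℂ))) := T5_cont _ _
    have cRB : Continuous (T5 (l + τ) (fun k => ((c2 k : ℝ) : ℂ))) := T5_cont _ _
    have hint : ∫ u in (0 : ℝ)..(2 * Real.pi),
        ((conj (Ek (l + τ) 0 u) * κ - conj (A e u)) * T5 (l + τ) (fun k => ((c1 k : ℝ) : ℂ)) u +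
        (conj (Ek (l + τ) 0 u) * (-s : ℝ) - conj (B e u)) *
          T5 (l + τ) (fun k => ((c2 k : ℝ) : ℂ)) u) =
        2 * Real.pi * ((κ * c1 0 + (-s) * c2 0 : ℝ) : ℂ) := by
      have j1 := int_T5 (l + τ) (fun k => ((c1 k : ℝ) : ℂ))
      have j2 := int_T5 (l + τ) (fun k => ((c2 k : ℝ) : ℂ))
      have j3 : ∀ u, (conj (Ek (l + τ) 0 u) * κ - conj (A e u)) *
            T5 (l + τ) (fun k => ((c1 k : ℝ) : ℂ)) u +
          (conj (Ek (l + τ) 0 u) * (-s : ℝ) - conj (B e u)) *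
            T5 (l + τ) (fun k => ((c2 k : ℝ) : ℂ)) u =
          ((κ : ℂ) * (conj (Ek (l + τ) 0 u) * T5 (l + τ) (fun k => ((c1 k : ℝ) : ℂ)) u) +
          ((-s : ℝ) : ℂ) * (conj (Ek (l + τ) 0 u) * T5 (l + τ) (fun k => ((c2 k : ℝ) : ℂ)) u)) -
          (conj (A e u) * T5 (l + τ) (fun k => ((c1 k : ℝ) : ℂ)) u +
            conj (B e u) * T5 (l + τ) (fun k => ((c2 k : ℝ) : ℂ)) u) := by
        intro u
        ring
      rw [integral_congr (fun u _ => j3 u), intervalIntegral.integral_sub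
        (Continuous.intervalIntegrable (by fun_prop) _ _)
        (Continuous.intervalIntegrable (by fun_prop) _ _), hgreen,
        intervalIntegral.integral_add (Continuous.intervalIntegrable (by fun_prop) _ _)
        (Continuous.intervalIntegrable (by fun_prop) _ _), intervalIntegral.integral_const_mul,
        intervalIntegral.integral_const_mul, j1, j2]
      push_cast
      ring
    have hnorm := intervalIntegral.norm_integral_le_of_norm_le_const (a := 0) (b := 2 * Real.pi)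
      (f := fun u => (conj (Ek (l + τ) 0 u) * κ - conj (A e u)) *
            T5 (l + τ) (fun k => ((c1 k : ℝ) : ℂ)) u +
          (conj (Ek (l + τ) 0 u) * (-s : ℝ) - conj (B e u)) *
            T5 (l + τ) (fun k => ((c2 k : ℝ) : ℂ)) u)
      (C := 5 * C₂ * (M1 + M2) * (|e| * (|τ| + e ^ 2))) (by
        intro u hu
        rw [uIoc_of_le (by positivity)] at hu
        have hu' : u ∈ Icc (0 : ℝ) (2 * Real.pi) := ⟨hu.1.le, hu.2⟩
        obtain ⟨k1, k2⟩ := hcl u hu'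
        have w1 := close_E (A := A e u) (κ := κ) (q := l + τ) (C₂ := C * |e|) hu' k1
          (by rw [add_sub_cancel_left]; exact hτe)
        have k2' : ‖B e u - ((-s : ℝ) : ℂ) * Complex.exp (l * u * Complex.I)‖ ≤ C * |e| := by
          refine le_trans (le_of_eq ?_) k2
          congr 1
          rw [hs]
          push_cast
          ring
        have w2 := close_E (A := B e u) (κ := -s) (q := l + τ) (C₂ := C * |e|) hu' k2'
          (by rw [add_sub_cancel_left]; exact hτe)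
        rw [abs_neg, abs_of_pos hs0] at w2
        have r1 := norm_T5 (l + τ) _ bA' u
        have r2 := norm_T5 (l + τ) _ bB' u
        have z1 : |κ| * (2 * Real.pi * (C * |e|)) + C * |e| ≤ C₂ * |e| := by
          rw [hC₂]
          have : 0 ≤ s * (2 * Real.pi * (C * |e|)) := by positivity
          linarith
        have z2 : s * (2 * Real.pi * (C * |e|)) + C * |e| ≤ C₂ * |e| := by
          rw [hC₂]
          have : 0 ≤ |κ| * (2 * Real.pi * (C * |e|)) := by positivity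
          linarith
        have z3 : 0 ≤ C₂ * |e| := by positivity
        refine (norm_add_le _ _).trans ?_
        rw [norm_mul, norm_mul]
        calc _ ≤ C₂ * |e| * (5 * (M1 * (|τ| + e ^ 2))) + C₂ * |e| * (5 * (M2 * (|τ| + e ^ 2))) :=
              add_le_add (mul_le_mul (w1.trans z1) r1 (norm_nonneg _) z3)
                (mul_le_mul (w2.trans z2) r2 (norm_nonneg _) z3)
          _ = _ := by ring)
    rw [hint, norm_mul, Complex.norm_real, Real.norm_eq_abs, sub_zero,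
      abs_of_pos (by positivity : 0 < 2 * Real.pi)] at hnorm
    have hN : |κ * c1 0 + (-s) * c2 0| ≤ 5 * C₂ * (M1 + M2) * (|e| * (|τ| + e ^ 2)) := by
      have w : ‖(2 * (Real.pi : ℂ))‖ = 2 * Real.pi := by
        rw [norm_mul, Complex.norm_real, Real.norm_of_nonneg hpi.le]
        simp
      rw [w, mul_comm] at hnorm
      exact le_of_mul_le_mul_right hnorm (by positivity)
    rw [← hτ]
    have y1 : s * (2 * l * (2 * l ^ 2 - 1)) * (τ - c * e ^ 2) =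
        (κ * c1 0 + (-s) * c2 0 + s * (2 * l * (2 * l ^ 2 - 1)) * (τ - c * e ^ 2)) -
          (κ * c1 0 + (-s) * c2 0) := by ring
    rw [y1]
    refine (abs_sub _ _).trans ((add_le_add hmain hN).trans (le_of_eq ?_))
    ring
  -- the end
  obtain ⟨D0, hD0⟩ : ∃ D0, D0 = s * (2 * l * (2 * l ^ 2 - 1)) := ⟨_, rfl⟩
  have hD00 : D0 ≠ 0 := by
    rw [hD0]
    exact mul_ne_zero hs0.ne' (mul_ne_zero (by positivity) hn3)
  obtain ⟨K', hK'⟩ : ∃ K', K' = (M + 5 * C₂ * (M1 + M2)) / |D0| := ⟨_, rfl⟩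
  have hK'0 : 0 ≤ K' := by rw [hK']; positivity
  have key2 : ∀ e, |e| < δ → |(Λ e - l) - c * e ^ 2| ≤ K' * (|e| * (|Λ e - l| + e ^ 2)) := by
    intro e he
    have h := key e he
    rw [← hD0, abs_mul] at h
    have hD := abs_pos.2 hD00
    rw [hK', div_mul_eq_mul_div, le_div_iff₀ hD]
    linarith
  refine ⟨K' * (2 * (|c| + K') + 1), ?_⟩
  have hev1 : ∀ᶠ e in 𝓝 (0 : ℝ), |e| < δ := by
    have : Tendsto (fun e : ℝ => |e|) (𝓝 0) (𝓝 |0|) := continuous_abs.tendsto 0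
    rw [abs_zero] at this
    exact this.eventually_lt_const hδ0
  have hev2 : ∀ᶠ e in 𝓝 (0 : ℝ), K' * |e| < 1 / 2 := by
    have : Tendsto (fun e : ℝ => K' * |e|) (𝓝 0) (𝓝 (K' * |0|)) :=
      (continuous_const.mul continuous_abs).tendsto 0
    rw [abs_zero, mul_zero] at this
    exact this.eventually_lt_const (by norm_num)
  filter_upwards [hev1, hev2] with e he he'
  have h := key2 e he
  rw [← hc]
  have he1 : |e| ≤ 1 := by linarith
  have ht : |Λ e - l| ≤ 2 * (|c| + K') * e ^ 2 := by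
    have h1 : |Λ e - l| ≤ |(Λ e - l) - c * e ^ 2| + |c| * e ^ 2 := by
      have h2 : Λ e - l = ((Λ e - l) - c * e ^ 2) + c * e ^ 2 := by ring
      calc |Λ e - l| = |((Λ e - l) - c * e ^ 2) + c * e ^ 2| := by rw [← h2]
        _ ≤ _ := (abs_add_le _ _).trans (by rw [abs_mul c, abs_of_nonneg (sq_nonneg e)])
    have h3 : K' * |e| * |Λ e - l| ≤ 1 / 2 * |Λ e - l| :=
      mul_le_mul_of_nonneg_right he'.le (abs_nonneg _)
    have h4 : K' * |e| * e ^ 2 ≤ K' * e ^ 2 := by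
      refine mul_le_mul_of_nonneg_right ?_ (sq_nonneg e)
      exact mul_le_of_le_one_right hK'0 he1
    have h5 : K' * (|e| * (|Λ e - l| + e ^ 2)) = K' * |e| * |Λ e - l| + K' * |e| * e ^ 2 := by ring
    rw [h5] at h
    linarith
  calc |Λ e - l - c * e ^ 2| ≤ K' * (|e| * (|Λ e - l| + e ^ 2)) := h
    _ ≤ K' * (|e| * (2 * (|c| + K') * e ^ 2 + e ^ 2)) := by gcongr
    _ = K' * (2 * (|c| + K') + 1) * (|e| * e ^ 2) := by ring
    _ = K' * (2 * (|c| + K') + 1) * |e| ^ 3 := by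
      rw [← sq_abs e]
      ring

end Pool.Agent.D0H25.BF
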