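import Pool.Agent.D0H95.BF.Stm7

/-!
The modified field of the `n`-body problem is analytic in the region where it is not modified
(module XAN of the project BF of helper95, MP_5027f4_mp).
-/

set_option autoImplicit false

open Filter Topology Set
open scoped ContDiff
open Pool.Agent.W821.TB Pool.Agent.D0H95.NB Pool.Agent.D0H95.BF

namespace Pool.Agent.D0H25.BF

variable {n : ℕ} {m : Fin n → ℝ}

theorem omega_acc {q : Fin n → ℂ} (hq : ∀ a b, a ≠ b → q a ≠ q b) (a : Fin n) :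
    ContDiffAt ℝ ω (fun p : Fin n → ℂ => acc m p a) q := by
  unfold acc
  refine ContDiffAt.sum fun b hb => ?_
  have hne : q b - q a ≠ 0 := sub_ne_zero.2 (hq b a (Finset.ne_of_mem_erase hb))
  have hd : ContDiffAt ℝ ω (fun p : Fin n → ℂ => p b - p a) q := by fun_prop
  have hn : ContDiffAt ℝ ω (fun p : Fin n → ℂ => ‖p b - p a‖) q := hd.norm ℝ hne
  have hn3 : ContDiffAt ℝ ω (fun p : Fin n → ℂ => m b / ‖p b - p a‖ ^ 3) q :=
    contDiffAt_const.div (hn.pow 3) (pow_ne_zero 3 (norm_ne_zero_iff.2 hne))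
  have ho : ContDiffAt ℝ ω (fun p : Fin n → ℂ => ((m b / ‖p b - p a‖ ^ 3 : ℝ) : ℂ)) q :=
    (Complex.ofRealCLM.contDiff.contDiffAt).comp q hn3
  exact ho.mul hd

theorem omega_vf {z : Ph n} (hz : ∀ a b, a ≠ b → z.1 a ≠ z.1 b) :
    ContDiffAt ℝ ω (vf m) z := by
  refine ContDiffAt.prodMk contDiffAt_snd ?_
  refine contDiffAt_pi.2 fun a => ?_
  exact ContDiffAt.comp (g := fun p : Fin n → ℂ => acc m p a) (f := Prod.fst) z
    (omega_acc (m := m) hz a) contDiffAt_fst

/-- Newton's field is analytic at all points without collisions. -/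
theorem analyticAt_vf {z : Ph n} (hz : ∀ a b, a ≠ b → z.1 a ≠ z.1 b) :
    AnalyticAt ℝ (vf m) z := (omega_vf hz).analyticAt

/-- Module XAN. -/
theorem t_XAN : S_XAN := by
  intro n m R δ hR hδ z hz
  have hinc : ContDiff ℝ ω (fun z : cm m => (z : Ph n)) := (inc m).contDiff
  have h1 : ContDiffAt ℝ ω (vf m) ((fun z : cm m => (z : Ph n)) z) := omega_vf (Rg_ne hδ hz)
  have h2 : ContDiffAt ℝ ω (fun z : cm m => vf m (z : Ph n)) z := h1.comp z hinc.contDiffAt
  have h3 : ContDiffAt ℝ ω (fun z : cm m => pr m (vf m (z : Ph n))) z :=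
    (pr m).contDiff.contDiffAt.comp z h2
  have h4 : ∀ᶠ w : cm m in 𝓝 z, (w : Ph n) ∈ (Rg R δ : Set (Ph n)) :=
    hinc.continuous.continuousAt.eventually_mem ((isOpen_Rg R δ).mem_nhds hz)
  have h5 : XX m R δ =ᶠ[𝓝 z] fun w : cm m => pr m (vf m (w : Ph n)) := by
    filter_upwards [h4] with w hw
    rw [XX, chi_one hR hδ hw, one_smul]
  exact (h3.congr_of_eventuallyEq h5).analyticAt

end Pool.Agent.D0H25.BF
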